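import Pool.Agent.J6H61.GC.Base
import Pool.Agent.W154.PV.RoughD

set_option autoImplicit false

/-! # The excluded primes, and the rough sums -/

namespace Pool.Agent.J6H61.GC

open Polynomial Finset Filter
open Pool.Agent.H474R2.PG (rho PR Sg)
open Pool.Agent.H426R3.SQ (SP)

/-- the resultant of `(X + s)² + D m²` and `(X + s')² + D m'²` -/
def res (D : ℕ) (z z' : ℤ × ℕ) : ℤ :=
  ((z.1 - z'.1) ^ 2 + (D : ℤ) * ((z.2 : ℤ) - z'.2) ^ 2) *
    ((z.1 - z'.1) ^ 2 + (D : ℤ) * ((z.2 : ℤ) + z'.2) ^ 2)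

lemma dvd_res (D : ℕ) (z z' : ℤ × ℕ) (n : ℤ) (p : ℤ) (h : p ∣ val D n z) (h' : p ∣ val D n z') :
    p ∣ res D z z' := by
  obtain ⟨a, ha⟩ := h
  obtain ⟨b, hb⟩ := h'
  have e : res D z z' = 2 * (z.1 - z'.1) ^ 2 * (val D n z + val D n z') +
      (val D n z - val D n z') ^ 2 -
      2 * (val D n z - val D n z') * ((n + z.1) ^ 2 - (n + z'.1) ^ 2) := by
    unfold val res
    ring
  rw [ha, hb] at e
  refine ⟨2 * (z.1 - z'.1) ^ 2 * (a + b) + (a - b) * (p * a - p * b) -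
    2 * (a - b) * ((n + z.1) ^ 2 - (n + z'.1) ^ 2), ?_⟩
  rw [e]
  ring

lemma res_ne (D : ℕ) (hD : 1 ≤ D) (z z' : ℤ × ℕ) (hz : 1 ≤ z.2) (h : z ≠ z') :
    res D z z' ≠ 0 := by
  unfold res
  have hD0 : (1 : ℤ) ≤ D := by exact_mod_cast hD
  have hz0 : (1 : ℤ) ≤ z.2 := by exact_mod_cast hz
  have hz'0 : (0 : ℤ) ≤ z'.2 := by positivity
  apply mul_ne_zero
  · intro h0
    have h1 : (z.1 - z'.1) ^ 2 = 0 ∧ ((z.2 : ℤ) - z'.2) ^ 2 = 0 := by
      constructor <;> nlinarith [sq_nonneg (z.1 - z'.1), sq_nonneg ((z.2 : ℤ) - z'.2)]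
    have h2 : z.1 = z'.1 := by
      have := pow_eq_zero_iff (two_ne_zero) |>.1 h1.1
      linarith
    have h3 : (z.2 : ℤ) = z'.2 := by
      have := pow_eq_zero_iff (two_ne_zero) |>.1 h1.2
      linarith
    exact h (Prod.ext h2 (by exact_mod_cast h3))
  · have h1 : 0 < (D : ℤ) * ((z.2 : ℤ) + z'.2) ^ 2 := by positivity
    have h2 := sq_nonneg (z.1 - z'.1)
    exact (by linarith : (0:ℤ) < (z.1 - z'.1) ^ 2 + (D : ℤ) * ((z.2 : ℤ) + z'.2) ^ 2).ne'

/-- the excluded primes -/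
def bad (D : ℕ) (R : Finset (ℤ × ℕ)) : Finset ℕ :=
  (R.biUnion fun z => z.2.primeFactors) ∪
    ((R ×ˢ R).biUnion fun q => (res D q.1 q.2).natAbs.primeFactors)

lemma card_primeFactors_le (n : ℕ) (T : ℝ) (hT : 0 ≤ T) (h : (n : ℝ) ≤ Real.exp T) :
    (n.primeFactors.card : ℝ) ≤ 2 * T := by
  rcases Nat.eq_zero_or_pos n with rfl | hn
  · simp; exact hT
  · have h1 : (2 : ℝ) ^ n.primeFactors.card ≤ n := by
      have h2 : 2 ^ n.primeFactors.card ≤ ∏ p ∈ n.primeFactors, p := by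
        rw [← Finset.prod_const]
        exact Finset.prod_le_prod' fun p hp => (Nat.prime_of_mem_primeFactors hp).two_le
      have h3 := Nat.le_of_dvd hn (Nat.prod_primeFactors_dvd n)
      exact_mod_cast h2.trans h3
    have h2 := h1.trans h
    have h3 := Real.log_le_log (by positivity) h2
    rw [Real.log_pow, Real.log_exp] at h3
    have h4 : (1 / 2 : ℝ) ≤ Real.log 2 := by
      have := Real.log_two_gt_d9
      linarith
    have h5 : (n.primeFactors.card : ℝ) * (1 / 2) ≤ n.primeFactors.card * Real.log 2 :=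
      mul_le_mul_of_nonneg_left h4 (Nat.cast_nonneg _)
    linarith

lemma bad_card (D : ℕ) (R : Finset (ℤ × ℕ)) (T : ℝ) (hT : 0 ≤ T)
    (h : ∀ z ∈ R, (z.2 : ℝ) ≤ Real.exp T)
    (h' : ∀ z ∈ R, ∀ z' ∈ R, ((res D z z').natAbs : ℝ) ≤ Real.exp T) :
    ((bad D R).card : ℝ) ≤ (R.card + R.card ^ 2) * (2 * T) := by
  have h1 : (bad D R).card ≤ (R.biUnion fun z => z.2.primeFactors).card +
    ((R ×ˢ R).biUnion fun q => (res D q.1 q.2).natAbs.primeFactors).card := card_union_le _ _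
  have h2 : ((R.biUnion fun z => z.2.primeFactors).card : ℝ) ≤ R.card * (2 * T) := by
    have h3 : (R.biUnion fun z => z.2.primeFactors).card ≤
        ∑ z ∈ R, (z.2.primeFactors).card := card_biUnion_le
    calc ((R.biUnion fun z => z.2.primeFactors).card : ℝ) ≤
        ∑ z ∈ R, ((z.2.primeFactors).card : ℝ) := by exact_mod_cast h3
      _ ≤ ∑ z ∈ R, (2 * T) := sum_le_sum fun z hz => card_primeFactors_le _ T hT (h z hz)
      _ = R.card * (2 * T) := by rw [sum_const, nsmul_eq_mul]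
  have h4 : (((R ×ˢ R).biUnion fun q => (res D q.1 q.2).natAbs.primeFactors).card : ℝ) ≤
      R.card ^ 2 * (2 * T) := by
    have h3 : ((R ×ˢ R).biUnion fun q => (res D q.1 q.2).natAbs.primeFactors).card ≤
        ∑ q ∈ R ×ˢ R, ((res D q.1 q.2).natAbs.primeFactors).card := card_biUnion_le
    calc (((R ×ˢ R).biUnion fun q => (res D q.1 q.2).natAbs.primeFactors).card : ℝ) ≤
        ∑ q ∈ R ×ˢ R, (((res D q.1 q.2).natAbs.primeFactors).card : ℝ) := by exact_mod_cast h3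
      _ ≤ ∑ q ∈ R ×ˢ R, (2 * T) := sum_le_sum fun q hq => by
          rw [mem_product] at hq
          exact card_primeFactors_le _ T hT (h' _ hq.1 _ hq.2)
      _ = R.card ^ 2 * (2 * T) := by
          rw [sum_const, nsmul_eq_mul, card_product]
          push_cast
          ring
  have h5 : ((bad D R).card : ℝ) ≤ ((R.biUnion fun z => z.2.primeFactors).card : ℝ) +
    (((R ×ˢ R).biUnion fun q => (res D q.1 q.2).natAbs.primeFactors).card : ℝ) := by
    exact_mod_cast h1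
  calc ((bad D R).card : ℝ) ≤ _ := h5
    _ ≤ R.card * (2 * T) + R.card ^ 2 * (2 * T) := add_le_add h2 h4
    _ = _ := by ring

lemma not_bad_m {D : ℕ} {R : Finset (ℤ × ℕ)} {p : ℕ} (hp : p.Prime) (hb : p ∉ bad D R)
    {z : ℤ × ℕ} (hz : z ∈ R) (hz1 : 1 ≤ z.2) : ¬ p ∣ z.2 := by
  intro h
  apply hb
  unfold bad
  rw [mem_union, mem_biUnion]
  exact Or.inl ⟨z, hz, Nat.mem_primeFactors.2 ⟨hp, h, by omega⟩⟩

lemma not_bad_uniq {D : ℕ} (hD : 1 ≤ D) {R : Finset (ℤ × ℕ)} {p : ℕ} (hp : p.Prime)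
    (hb : p ∉ bad D R) {z z' : ℤ × ℕ} (hz : z ∈ R) (hz' : z' ∈ R) (hz1 : 1 ≤ z.2) (n : ℤ)
    (h : (p : ℤ) ∣ val D n z) (h' : (p : ℤ) ∣ val D n z') : z = z' := by
  by_contra hne
  apply hb
  unfold bad
  rw [mem_union, mem_biUnion, mem_biUnion]
  refine Or.inr ⟨(z, z'), mem_product.2 ⟨hz, hz'⟩, Nat.mem_primeFactors.2 ⟨hp, ?_, ?_⟩⟩
  · exact Int.natCast_dvd.1 (dvd_res D z z' n p h h')
  · exact Int.natAbs_ne_zero.2 (res_ne D hD z z' hz1 hne)

/-- the densities -/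
noncomputable def gg (D : ℕ) (y : ℝ) (B : Finset ℕ) (p : ℕ) : ℝ :=
  if p.Prime ∧ y < (p : ℝ) ∧ p ∉ B then (rho (ff D) p : ℝ) / (p : ℝ) else 0

lemma gg_nonneg (D : ℕ) (y : ℝ) (B : Finset ℕ) (p : ℕ) : 0 ≤ gg D y B p := by
  unfold gg
  split_ifs <;> positivity

lemma gg_le (D : ℕ) (y : ℝ) (B : Finset ℕ) (p : ℕ) : gg D y B p ≤ 2 / (p : ℝ) := by
  unfold gg
  split_ifs with h
  · have h1 : (rho (ff D) p : ℝ) ≤ 2 := by exact_mod_cast rho_le_two D p h.1
    exact div_le_div_of_nonneg_right h1 (by positivity)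
  · positivity

end Pool.Agent.J6H61.GC
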