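import Pool.Agent.N201.SP.Base

set_option autoImplicit false

/-! # The polynomials `(X + s)² + D m²`: roots modulo primes -/

namespace Pool.Agent.J6H61.GC

open Polynomial Finset
open Pool.Agent.H474R2.PG (rho PR Sg rho_le_self rho_shift)

/-- the value `(n + s)² + D m²` -/
def val (D : ℕ) (n : ℤ) (z : ℤ × ℕ) : ℤ := (n + z.1) ^ 2 + (D : ℤ) * (z.2 : ℤ) ^ 2

/-- the polynomial `(X + s)² + D m²` -/
noncomputable def pol (D : ℕ) (z : ℤ × ℕ) : ℤ[X] :=
  (X + C z.1) ^ 2 + C ((D : ℤ) * (z.2 : ℤ) ^ 2)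

/-- the polynomial `X² + D` -/
noncomputable def ff (D : ℕ) : ℤ[X] := X ^ 2 + C (D : ℤ)

lemma pol_eval (D : ℕ) (z : ℤ × ℕ) (n : ℤ) : (pol D z).eval n = val D n z := by
  simp [pol, val]

lemma ff_eval (D : ℕ) (n : ℤ) : (ff D).eval n = n ^ 2 + (D : ℤ) := by
  simp [ff]

lemma ff_natDegree (D : ℕ) : (ff D).natDegree = 2 := by
  unfold ff
  exact natDegree_X_pow_add_C

lemma ff_monic (D : ℕ) : (ff D).Monic := by
  unfold ff
  exact monic_X_pow_add_C _ (by norm_num)

lemma ff_irr (D : ℕ) (hD : 1 ≤ D) : Irreducible (ff D) := by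
  have h1 : (ff D).Monic := ff_monic D
  rw [h1.irreducible_iff_irreducible_map_fraction_map (K := ℚ)]
  have h2 : (ff D).map (algebraMap ℤ ℚ) = X ^ 2 + C (D : ℚ) := by
    unfold ff
    simp
  rw [h2]
  have h3 : (X ^ 2 + C (D : ℚ) : ℚ[X]).natDegree = 2 := natDegree_X_pow_add_C
  rw [Polynomial.irreducible_iff_roots_eq_zero_of_degree_le_three (by rw [h3]) (by rw [h3]; norm_num)]
  rw [Multiset.eq_zero_iff_forall_notMem]
  intro x hx
  have h4 := isRoot_of_mem_roots hx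
  rw [IsRoot.def] at h4
  simp only [eval_add, eval_pow, eval_X, eval_C] at h4
  have h5 : (1 : ℚ) ≤ D := by exact_mod_cast hD
  nlinarith [sq_nonneg x]

lemma pol_inj (D : ℕ) (hD : 1 ≤ D) : Function.Injective (pol D) := by
  intro z z' h
  have h0 : ∀ n : ℤ, val D n z = val D n z' := fun n => by
    rw [← pol_eval, ← pol_eval, h]
  have h1 := h0 0
  have h2 := h0 1
  unfold val at h1 h2
  have h3 : z.1 = z'.1 := by linarith
  have h4 : (D : ℤ) * (z.2 : ℤ) ^ 2 = (D : ℤ) * (z'.2 : ℤ) ^ 2 := by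
    rw [h3] at h1
    linarith
  have hD0 : (D : ℤ) ≠ 0 := by exact_mod_cast (by omega : D ≠ 0)
  have h5 := mul_left_cancel₀ hD0 h4
  have h6 : z.2 = z'.2 := by
    have h7 : (z.2 : ℤ) = (z'.2 : ℤ) := by
      rcases sq_eq_sq_iff_eq_or_eq_neg.1 h5 with h | h
      · exact h
      · omega
    exact_mod_cast h7
  exact Prod.ext h3 h6

/-- at most two roots -/
lemma rho_le_two (D p : ℕ) (hp : p.Prime) : rho (ff D) p ≤ 2 := by
  have : Fact p.Prime := ⟨hp⟩
  set g : (ZMod p)[X] := (ff D).map (Int.castRingHom (ZMod p)) with hg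
  have hg0 : g ≠ 0 := ((ff_monic D).map _).ne_zero
  have hdeg : g.natDegree ≤ 2 := by
    rw [← ff_natDegree D]
    exact natDegree_map_le
  unfold rho
  classical
  calc ((Finset.range p).filter (fun a : ℕ => (p : ℤ) ∣ (ff D).eval (a : ℤ))).card
      ≤ g.roots.toFinset.card := by
        apply Finset.card_le_card_of_injOn (fun a : ℕ => (a : ZMod p))
        · intro a ha
          rw [Finset.mem_coe, Finset.mem_filter] at ha
          rw [Finset.mem_coe, Multiset.mem_toFinset, mem_roots hg0, IsRoot.def, hg]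
          have h4 : eval ((a : ℤ) : ZMod p) ((ff D).map (Int.castRingHom (ZMod p))) =
              (((ff D).eval (a : ℤ) : ℤ) : ZMod p) := by
            rw [eval_intCast_map]
            rfl
          have h5 : ((a : ℤ) : ZMod p) = (a : ZMod p) := by push_cast; rfl
          change eval (a : ZMod p) ((ff D).map (Int.castRingHom (ZMod p))) = 0
          rw [← h5, h4, ZMod.intCast_zmod_eq_zero_iff_dvd]
          exact ha.2
        · intro a ha b hb hab
          rw [Finset.mem_coe, Finset.mem_filter, Finset.mem_range] at ha hb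
          have h6 := (ZMod.natCast_eq_natCast_iff' a b p).1 hab
          rwa [Nat.mod_eq_of_lt ha.1, Nat.mod_eq_of_lt hb.1] at h6
    _ ≤ Multiset.card g.roots := Multiset.toFinset_card_le _
    _ ≤ g.natDegree := card_roots' g
    _ ≤ 2 := hdeg

/-- the number of roots of a polynomial, in `ZMod p` -/
lemma rho_zmod (f : ℤ[X]) (p : ℕ) [NeZero p] :
    rho f p = ((Finset.univ : Finset (ZMod p)).filter
      (fun x => (f.map (Int.castRingHom (ZMod p))).eval x = 0)).card := by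
  unfold rho
  rw [← Pool.Agent.H474R2.PG.card_range_zmod p
    (fun x => (f.map (Int.castRingHom (ZMod p))).eval x = 0)]
  congr 1
  refine Finset.filter_congr (fun a _ => ?_)
  rw [Pool.Agent.H474R2.PG.dvd_iff_zmod]
  push_cast
  rfl

lemma pol_map_eval (D : ℕ) (z : ℤ × ℕ) (p : ℕ) (x : ZMod p) :
    ((pol D z).map (Int.castRingHom (ZMod p))).eval x =
      (x + (z.1 : ZMod p)) ^ 2 + (D : ZMod p) * (z.2 : ZMod p) ^ 2 := by
  simp [pol]

lemma ff_map_eval (D : ℕ) (p : ℕ) (x : ZMod p) :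
    ((ff D).map (Int.castRingHom (ZMod p))).eval x = x ^ 2 + (D : ZMod p) := by
  simp [ff]

/-- if `p` does not divide `m`, then `(X + s)² + D m²` has as many roots as `X² + D` -/
lemma rho_pol (D : ℕ) (z : ℤ × ℕ) (p : ℕ) (hp : p.Prime) (hm : ¬ p ∣ z.2) :
    rho (pol D z) p = rho (ff D) p := by
  classical
  have : NeZero p := ⟨hp.ne_zero⟩
  have : Fact p.Prime := ⟨hp⟩
  rw [rho_zmod _ p, rho_zmod _ p]
  have hm0 : (z.2 : ZMod p) ≠ 0 := by
    intro h
    exact hm ((ZMod.natCast_eq_zero_iff _ _).1 h)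
  refine Finset.card_bij (fun x _ => (x + (z.1 : ZMod p)) * (z.2 : ZMod p)⁻¹) ?_ ?_ ?_
  · intro x hx
    rw [Finset.mem_filter, pol_map_eval] at hx
    rw [Finset.mem_filter, ff_map_eval]
    refine ⟨Finset.mem_univ _, ?_⟩
    have h := hx.2
    field_simp
    linear_combination h
  · intro x _ y _ h
    have h1 := mul_right_cancel₀ (inv_ne_zero hm0) h
    exact add_right_cancel h1
  · intro y hy
    rw [Finset.mem_filter, ff_map_eval] at hy
    refine ⟨y * (z.2 : ZMod p) - (z.1 : ZMod p), ?_, ?_⟩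
    · rw [Finset.mem_filter, pol_map_eval]
      refine ⟨Finset.mem_univ _, ?_⟩
      linear_combination (z.2 : ZMod p) ^ 2 * hy.2
    · field_simp
      ring

/-- if `p` divides `m`, then `(X + s)² + D m²` has a root -/
lemma rho_pol_pos (D : ℕ) (z : ℤ × ℕ) (p : ℕ) (hp : p.Prime) (hm : p ∣ z.2) :
    1 ≤ rho (pol D z) p := by
  classical
  have : NeZero p := ⟨hp.ne_zero⟩
  rw [rho_zmod _ p, Nat.one_le_iff_ne_zero, ← Nat.pos_iff_ne_zero, Finset.card_pos]
  refine ⟨-(z.1 : ZMod p), ?_⟩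
  rw [Finset.mem_filter, pol_map_eval]
  refine ⟨Finset.mem_univ _, ?_⟩
  have hm0 : (z.2 : ZMod p) = 0 := (ZMod.natCast_eq_zero_iff _ _).2 hm
  rw [hm0]
  ring

/-- lower bound for the number of the roots -/
lemma rho_pol_ge (D : ℕ) (z : ℤ × ℕ) (p : ℕ) (hp : p.Prime) :
    (rho (ff D) p : ℝ) - (if p ∣ z.2 then 1 else 0) ≤ (rho (pol D z) p : ℝ) := by
  split_ifs with h
  · have h1 : (1 : ℝ) ≤ rho (pol D z) p := by exact_mod_cast rho_pol_pos D z p hp h
    have h2 : (rho (ff D) p : ℝ) ≤ 2 := by exact_mod_cast rho_le_two D p hp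
    linarith
  · rw [rho_pol D z p hp h]
    simp

/-- `exp (∑_{p ∣ m} 1/p) ≤ m / φ(m)` -/
lemma exp_le_tot (m : ℕ) (hm : 1 ≤ m) :
    Real.exp (∑ p ∈ m.primeFactors, 1 / (p : ℝ)) ≤ (m : ℝ) / (Nat.totient m : ℝ) := by
  have h1 : (Nat.totient m : ℝ) = m * ∏ p ∈ m.primeFactors, (1 - (p : ℝ)⁻¹) := by
    have h := congrArg (Rat.cast : ℚ → ℝ) (Nat.totient_eq_mul_prod_factors m)
    push_cast at h
    exact h
  have h2 : ∏ p ∈ m.primeFactors, (1 - (p : ℝ)⁻¹) ≤
      Real.exp (-∑ p ∈ m.primeFactors, 1 / (p : ℝ)) := by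
    rw [← Finset.sum_neg_distrib, Real.exp_sum]
    apply Finset.prod_le_prod
    · intro p hp
      have hp2 : (1 : ℝ) ≤ p := by
        exact_mod_cast (Nat.prime_of_mem_primeFactors hp).one_lt.le
      have : (p : ℝ)⁻¹ ≤ 1 := inv_le_one_of_one_le₀ hp2
      linarith
    · intro p _
      have := Real.add_one_le_exp (-(1 / (p : ℝ)))
      rw [one_div] at this ⊢
      linarith
  have hm0 : (0 : ℝ) < m := by exact_mod_cast hm
  have ht0 : (0 : ℝ) < Nat.totient m := by exact_mod_cast Nat.totient_pos.2 hm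
  rw [le_div_iff₀ ht0, h1]
  calc Real.exp (∑ p ∈ m.primeFactors, 1 / (p : ℝ)) *
        (m * ∏ p ∈ m.primeFactors, (1 - (p : ℝ)⁻¹))
      ≤ Real.exp (∑ p ∈ m.primeFactors, 1 / (p : ℝ)) *
        (m * Real.exp (-∑ p ∈ m.primeFactors, 1 / (p : ℝ))) := by
        apply mul_le_mul_of_nonneg_left _ (Real.exp_pos _).le
        exact mul_le_mul_of_nonneg_left h2 hm0.le
    _ = m * (Real.exp (∑ p ∈ m.primeFactors, 1 / (p : ℝ)) *
        Real.exp (-∑ p ∈ m.primeFactors, 1 / (p : ℝ))) := by ring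
    _ = m := by rw [← Real.exp_add, add_neg_cancel, Real.exp_zero, mul_one]

/-- the product over the small primes -/
lemma prod_small (D : ℕ) (z : ℤ × ℕ) (hm : 1 ≤ z.2) (w : ℝ) :
    ∏ p ∈ PR w, (1 - (rho (pol D z) p : ℝ) / (p : ℝ)) ≤
      Real.exp (-(Sg (rho (ff D)) w)) * ((z.2 : ℝ) / (Nat.totient z.2 : ℝ)) := by
  have hpr : ∀ p ∈ PR w, p.Prime := fun p hp => (Finset.mem_filter.mp hp).2
  have h1 : ∏ p ∈ PR w, (1 - (rho (pol D z) p : ℝ) / (p : ℝ)) ≤
      Real.exp (-(∑ p ∈ PR w, (rho (pol D z) p : ℝ) / (p : ℝ))) := by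
    rw [← Finset.sum_neg_distrib, Real.exp_sum]
    apply Finset.prod_le_prod
    · intro p hp
      exact Pool.Agent.N201.SP.fac_nonneg _ (hpr p hp)
    · intro p _
      have := Real.add_one_le_exp (-((rho (pol D z) p : ℝ) / (p : ℝ)))
      linarith
  have h2 : Sg (rho (ff D)) w - ∑ p ∈ z.2.primeFactors, 1 / (p : ℝ) ≤
      ∑ p ∈ PR w, (rho (pol D z) p : ℝ) / (p : ℝ) := by
    have h3 : ∑ p ∈ PR w, ((rho (ff D) p : ℝ) - (if p ∣ z.2 then 1 else 0)) / (p : ℝ) ≤
        ∑ p ∈ PR w, (rho (pol D z) p : ℝ) / (p : ℝ) := by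
      apply Finset.sum_le_sum
      intro p hp
      exact div_le_div_of_nonneg_right (rho_pol_ge D z p (hpr p hp)) (by positivity)
    refine le_trans ?_ h3
    simp_rw [sub_div]
    rw [Finset.sum_sub_distrib]
    unfold Sg
    apply sub_le_sub_left
    have h4 : ∑ p ∈ PR w, (if p ∣ z.2 then (1:ℝ) else 0) / (p : ℝ) =
        ∑ p ∈ (PR w).filter (fun p => p ∣ z.2), 1 / (p : ℝ) := by
      rw [Finset.sum_filter]
      refine Finset.sum_congr rfl fun p _ => ?_
      split_ifs <;> simp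
    rw [h4]
    apply Finset.sum_le_sum_of_subset_of_nonneg
    · intro p hp
      rw [Finset.mem_filter] at hp
      rw [Nat.mem_primeFactors]
      exact ⟨hpr p hp.1, hp.2, by omega⟩
    · intro p _ _
      positivity
  refine h1.trans ?_
  calc Real.exp (-(∑ p ∈ PR w, (rho (pol D z) p : ℝ) / (p : ℝ)))
      ≤ Real.exp (-(Sg (rho (ff D)) w) + ∑ p ∈ z.2.primeFactors, 1 / (p : ℝ)) := by
        apply Real.exp_le_exp.mpr
        linarith
    _ = Real.exp (-(Sg (rho (ff D)) w)) * Real.exp (∑ p ∈ z.2.primeFactors, 1 / (p : ℝ)) := by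
        rw [Real.exp_add]
    _ ≤ _ := mul_le_mul_of_nonneg_left (exp_le_tot z.2 hm) (Real.exp_pos _).le

end Pool.Agent.J6H61.GC
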