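import Pool.Agent.J6H61.GC.Mod

set_option autoImplicit false

/-! # The number of the classes `b` modulo `q` with `b² + D` prime to `q` -/

namespace Pool.Agent.J6H61.GC

open Polynomial Finset Filter
open Pool.Agent.H474R2.PG (rho PR Sg)

/-- the number of the residue classes `b` modulo `q` with `b² + D` prime to `q` -/
def classes (D q : ℕ) : ℕ := ((range q).filter (fun b : ℕ => Nat.Coprime (b ^ 2 + D) q)).card

lemma coprime_iff (D q : ℕ) (hq : 1 ≤ q) (n : ℤ) : IsCoprime (n ^ 2 + (D : ℤ)) (q : ℤ) ↔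
    ∀ p ∈ q.primeFactors, ¬ (p : ℤ) ∣ (ff D).eval n := by
  have hpos : 0 ≤ n ^ 2 + (D : ℤ) := by positivity
  obtain ⟨x, hx⟩ := Int.eq_ofNat_of_zero_le hpos
  constructor
  · intro h p hp hd
    rw [ff_eval] at hd
    have hpp := Nat.prime_of_mem_primeFactors hp
    have hpq : (p : ℤ) ∣ (q : ℤ) := by exact_mod_cast Nat.dvd_of_mem_primeFactors hp
    have h1 := h.isUnit_of_dvd' hd hpq
    rw [Int.isUnit_iff] at h1
    have := hpp.one_lt
    omega
  · intro h
    rw [hx, Nat.isCoprime_iff_coprime]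
    by_contra hc
    obtain ⟨p, hp, h1, h2⟩ := Nat.Prime.not_coprime_iff_dvd.1 hc
    refine h p (Nat.mem_primeFactors.2 ⟨hp, h2, by omega⟩) ?_
    rw [ff_eval, hx]
    exact_mod_cast h1

lemma coprime_nat (D q : ℕ) (hq : 1 ≤ q) (b : ℕ) : Nat.Coprime (b ^ 2 + D) q ↔
    ∀ p ∈ q.primeFactors, ¬ (p : ℤ) ∣ (ff D).eval (b : ℤ) := by
  rw [← coprime_iff D q hq, ← Nat.isCoprime_iff_coprime]
  push_cast
  rfl

/-- counting over `k` periods -/
lemma count_periods (D q : ℕ) (hq : 1 ≤ q) (k : ℕ) :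
    (((Finset.Ioc (0 : ℤ) ((k * q : ℕ) : ℤ)).filter (fun a : ℤ =>
      ∀ p ∈ q.primeFactors, ¬ (p : ℤ) ∣ (ff D).eval a)).card) = k * classes D q := by
  classical
  have hper : ∀ a b : ℤ, (q : ℤ) ∣ a - b → ((∀ p ∈ q.primeFactors, ¬ (p : ℤ) ∣ (ff D).eval a) ↔
      ∀ p ∈ q.primeFactors, ¬ (p : ℤ) ∣ (ff D).eval b) := by
    intro a b h
    refine forall₂_congr fun p hp => not_congr ?_
    apply Pool.Agent.H474R2.PG.eval_dvd_congr
    refine dvd_trans ?_ h
    exact_mod_cast Nat.dvd_of_mem_primeFactors hp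
  have hq0 : (0 : ℤ) < q := by exact_mod_cast hq
  induction k with
  | zero => simp
  | succ k ih =>
    have h1 : Finset.Ioc (0 : ℤ) (((k + 1) * q : ℕ) : ℤ) =
        Finset.Ioc (0 : ℤ) ((k * q : ℕ) : ℤ) ∪
          Finset.Ioc ((k * q : ℕ) : ℤ) (((k + 1) * q : ℕ) : ℤ) := by
      rw [Finset.Ioc_union_Ioc_eq_Ioc] <;> push_cast <;> nlinarith
    have h2 : Disjoint (Finset.Ioc (0 : ℤ) ((k * q : ℕ) : ℤ))
        (Finset.Ioc ((k * q : ℕ) : ℤ) (((k + 1) * q : ℕ) : ℤ)) := by
      rw [Finset.disjoint_left]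
      intro x hx hx'
      rw [Finset.mem_Ioc] at hx hx'
      omega
    rw [h1, Finset.filter_union, Finset.card_union_of_disjoint
      (Finset.disjoint_filter_filter h2), ih,
      show (k + 1) * classes D q = k * classes D q + classes D q by ring]
    congr 1
    unfold classes
    symm
    refine Finset.card_bij (fun b _ => if b = 0 then (((k + 1) * q : ℕ) : ℤ)
      else ((k * q + b : ℕ) : ℤ)) ?_ ?_ ?_
    · intro b hb
      rw [Finset.mem_filter, Finset.mem_range, coprime_nat D q hq] at hb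
      rw [Finset.mem_filter, Finset.mem_Ioc]
      split_ifs with h0
      · subst h0
        refine ⟨⟨by push_cast; nlinarith, le_rfl⟩, (hper _ _ ?_).1 hb.2⟩
        push_cast
        exact ⟨-(k + 1), by ring⟩
      · refine ⟨⟨by push_cast; omega, by push_cast; nlinarith [hb.1]⟩, (hper _ _ ?_).1 hb.2⟩
        push_cast
        exact ⟨-k, by ring⟩
    · intro b hb b' hb' h
      rw [Finset.mem_filter, Finset.mem_range] at hb hb'
      split_ifs at h with h0 h1 h1
      · omega
      · have h3 : (k + 1) * q = k * q + b' := by exact_mod_cast h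
        rw [add_mul, one_mul] at h3
        omega
      · have h3 : k * q + b = (k + 1) * q := by exact_mod_cast h
        rw [add_mul, one_mul] at h3
        omega
      · have h3 : k * q + b = k * q + b' := by exact_mod_cast h
        omega
    · intro a ha
      rw [Finset.mem_filter, Finset.mem_Ioc] at ha
      obtain ⟨⟨h3, h4⟩, h5⟩ := ha
      push_cast at h3 h4
      by_cases h6 : a = (k + 1) * q
      · refine ⟨0, ?_, ?_⟩
        · rw [Finset.mem_filter, Finset.mem_range, coprime_nat D q hq]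
          refine ⟨hq, (hper _ _ ?_).1 h5⟩
          rw [h6]
          push_cast
          exact ⟨k + 1, by ring⟩
        · rw [if_pos rfl, h6]
          push_cast
          ring
      · obtain ⟨b, hb⟩ := Int.eq_ofNat_of_zero_le (show 0 ≤ a - k * q by linarith)
        have hb0 : b ≠ 0 := by
          rintro rfl
          push_cast at hb
          linarith
        have hbq : (b : ℤ) < q := by
          rw [← hb]
          have : a < (k + 1) * q := lt_of_le_of_ne h4 h6
          linarith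
        refine ⟨b, ?_, ?_⟩
        · rw [Finset.mem_filter, Finset.mem_range, coprime_nat D q hq]
          refine ⟨by exact_mod_cast hbq, (hper _ _ ?_).1 h5⟩
          rw [← hb]
          exact ⟨k, by ring⟩
        · rw [if_neg hb0]
          push_cast
          linarith

lemma classes_eq (D q : ℕ) (hq : 1 ≤ q) : (classes D q : ℝ) = q * kap D q := by
  classical
  obtain ⟨E, hE⟩ : ∃ E : ℝ, E = ∏ p ∈ q.primeFactors, (1 + (rho (ff D) p : ℝ)) := ⟨_, rfl⟩
  have key : ∀ k : ℕ, |(k : ℝ) * ((classes D q : ℝ) - q * kap D q)| ≤ E := by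
    intro k
    have h := count_U D 0 ((k * q : ℕ) : ℤ) (by positivity) 1 le_rfl 0 q.primeFactors
      (fun p hp => ⟨Nat.prime_of_mem_primeFactors hp, fun h => by
        have := (Nat.prime_of_mem_primeFactors hp).one_lt
        have := Nat.le_of_dvd one_pos h
        omega⟩) (fun _ => 0) ∅ (by simp) (by simp)
    have h2 : (Finset.Ioc (0 : ℤ) ((k * q : ℕ) : ℤ)).filter (fun a : ℤ => (((1 : ℕ) : ℤ) ∣ a - 0 ∧
        ∀ p ∈ (∅ : Finset ℕ), (p : ℤ) ∣ ((fun _ => 0 : ℕ → ℤ[X]) p).eval a) ∧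
          ∀ p ∈ q.primeFactors, ¬ (p : ℤ) ∣ (ff D).eval a) =
        (Finset.Ioc (0 : ℤ) ((k * q : ℕ) : ℤ)).filter (fun a : ℤ =>
          ∀ p ∈ q.primeFactors, ¬ (p : ℤ) ∣ (ff D).eval a) := by
      refine Finset.filter_congr fun a _ => ?_
      simp
    rw [h2, count_periods D q hq k, Finset.prod_empty, Finset.prod_empty, mul_one, mul_one,
      ← hE] at h
    have e : ((k * classes D q : ℕ) : ℝ) - ((((k * q : ℕ) : ℤ) : ℝ) - ((0 : ℤ) : ℝ)) / ((1 : ℕ) : ℝ) *
        ∏ p ∈ q.primeFactors, (1 - (rho (ff D) p : ℝ) / (p : ℝ)) =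
        (k : ℝ) * ((classes D q : ℝ) - q * kap D q) := by
      unfold kap
      push_cast
      ring
    rw [e] at h
    exact h
  by_contra hne
  have hd : 0 < |(classes D q : ℝ) - q * kap D q| := abs_pos.2 (sub_ne_zero.2 hne)
  obtain ⟨k, hk⟩ := exists_nat_gt (E / |(classes D q : ℝ) - q * kap D q|)
  rw [div_lt_iff₀ hd] at hk
  have h1 := key k
  rw [abs_mul, abs_of_nonneg (Nat.cast_nonneg k)] at h1
  linarith

end Pool.Agent.J6H61.GC
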