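import Pool.Agent.J6H61.GC.RoughG

set_option autoImplicit false

/-! # Counting with conditions at the primes of a modulus -/

namespace Pool.Agent.J6H61.GC

open Polynomial Finset Filter
open Pool.Agent.H474R2.PG (rho PR Sg)

open scoped Classical in
theorem count_U (D : ℕ) (A B : ℤ) (hAB : A ≤ B) (W : ℕ) (hW : 1 ≤ W) (r : ℤ) (U : Finset ℕ)
    (hU : ∀ p ∈ U, p.Prime ∧ ¬ p ∣ W) (P : ℕ → ℤ[X]) (T : Finset ℕ)
    (hT : ∀ p ∈ T, p.Prime ∧ ¬ p ∣ W) (hd : Disjoint U T) :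
    |(((Finset.Ioc A B).filter (fun a : ℤ => ((W : ℤ) ∣ a - r ∧
        ∀ p ∈ T, (p : ℤ) ∣ (P p).eval a) ∧ ∀ p ∈ U, ¬ (p : ℤ) ∣ (ff D).eval a)).card : ℝ) -
      ((B : ℝ) - A) / W * (∏ p ∈ U, (1 - (rho (ff D) p : ℝ) / (p : ℝ))) *
        ∏ p ∈ T, (rho (P p) p : ℝ) / (p : ℝ)| ≤
      (∏ p ∈ U, (1 + (rho (ff D) p : ℝ))) * ∏ p ∈ T, (rho (P p) p : ℝ) := by
  induction U using Finset.induction_on generalizing P T with
  | empty =>
    have h := Pool.Agent.N201.SP.count_poly P A B hAB W hW r T hT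
    simpa using h
  | insert u U huU ih =>
    have hU' : ∀ p ∈ U, p.Prime ∧ ¬ p ∣ W := fun p hp => hU p (mem_insert_of_mem hp)
    rw [disjoint_insert_left] at hd
    have h1 := ih hU' P T hT hd.2
    have hT' : ∀ p ∈ insert u T, p.Prime ∧ ¬ p ∣ W := by
      intro p hp
      rcases mem_insert.1 hp with rfl | hp
      · exact hU p (mem_insert_self p U)
      · exact hT p hp
    have h2 := ih hU' (Function.update P u (ff D)) (insert u T) hT' (by
      rw [disjoint_insert_right]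
      exact ⟨huU, hd.2⟩)
    have e1 : ∏ p ∈ T, (rho (Function.update P u (ff D) p) p : ℝ) / (p : ℝ) =
        ∏ p ∈ T, (rho (P p) p : ℝ) / (p : ℝ) := by
      refine prod_congr rfl fun p hp => ?_
      rw [Function.update_of_ne (by rintro rfl; exact hd.1 hp)]
    have e2 : ∏ p ∈ T, (rho (Function.update P u (ff D) p) p : ℝ) =
        ∏ p ∈ T, (rho (P p) p : ℝ) := by
      refine prod_congr rfl fun p hp => ?_
      rw [Function.update_of_ne (by rintro rfl; exact hd.1 hp)]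
    rw [prod_insert hd.1, prod_insert hd.1, e1, e2, Function.update_self] at h2
    obtain ⟨F, hF⟩ : ∃ F, F = (Finset.Ioc A B).filter (fun a : ℤ => ((W : ℤ) ∣ a - r ∧
        ∀ p ∈ T, (p : ℤ) ∣ (P p).eval a) ∧ ∀ p ∈ U, ¬ (p : ℤ) ∣ (ff D).eval a) := ⟨_, rfl⟩
    have h3 := Finset.card_filter_add_card_filter_not (s := F)
      (fun a : ℤ => (u : ℤ) ∣ (ff D).eval a)
    have h4 : F.filter (fun a : ℤ => (u : ℤ) ∣ (ff D).eval a) =
        (Finset.Ioc A B).filter (fun a : ℤ => ((W : ℤ) ∣ a - r ∧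
        ∀ p ∈ insert u T, (p : ℤ) ∣ (Function.update P u (ff D) p).eval a) ∧
          ∀ p ∈ U, ¬ (p : ℤ) ∣ (ff D).eval a) := by
      rw [hF, filter_filter]
      refine filter_congr fun a _ => ?_
      rw [forall_mem_insert, Function.update_self]
      have h5 : (∀ p ∈ T, (p : ℤ) ∣ (Function.update P u (ff D) p).eval a) ↔
          ∀ p ∈ T, (p : ℤ) ∣ (P p).eval a := by
        refine forall₂_congr fun p hp => ?_
        rw [Function.update_of_ne (by rintro rfl; exact hd.1 hp)]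
      rw [h5]
      tauto
    have h6 : F.filter (fun a : ℤ => ¬ (u : ℤ) ∣ (ff D).eval a) =
        (Finset.Ioc A B).filter (fun a : ℤ => ((W : ℤ) ∣ a - r ∧
        ∀ p ∈ T, (p : ℤ) ∣ (P p).eval a) ∧ ∀ p ∈ insert u U, ¬ (p : ℤ) ∣ (ff D).eval a) := by
      rw [hF, filter_filter]
      refine filter_congr fun a _ => ?_
      rw [forall_mem_insert]
      tauto
    rw [h4, h6] at h3
    rw [← hF] at h1
    rw [prod_insert huU, prod_insert huU]
    have h7 : (((Finset.Ioc A B).filter (fun a : ℤ => ((W : ℤ) ∣ a - r ∧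
        ∀ p ∈ T, (p : ℤ) ∣ (P p).eval a) ∧ ∀ p ∈ insert u U, ¬ (p : ℤ) ∣ (ff D).eval a)).card : ℝ) =
        (F.card : ℝ) - (((Finset.Ioc A B).filter (fun a : ℤ => ((W : ℤ) ∣ a - r ∧
        ∀ p ∈ insert u T, (p : ℤ) ∣ (Function.update P u (ff D) p).eval a) ∧
          ∀ p ∈ U, ¬ (p : ℤ) ∣ (ff D).eval a)).card : ℝ) := by
      rw [← h3]
      push_cast
      ring
    rw [h7]
    have h8 := abs_le.1 h1
    have h9 := abs_le.1 h2
    rw [abs_le]
    constructor <;> nlinarith [h8.1, h8.2, h9.1, h9.2]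

end Pool.Agent.J6H61.GC
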