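import Pool.Agent.J6H61.GC.Freq

set_option autoImplicit false

/-! # Progressions and additive complements -/

namespace Pool.Agent.J6H61.GC

open Finset Filter

/-- a number with a smaller prime divisor is not prime -/
lemma not_prime_of {x : ℕ} {p : ℕ} (hp : p.Prime) (h1 : (p : ℤ) ∣ (x : ℤ)) (h2 : (p : ℤ) < x) :
    ¬ x.Prime := by
  intro h
  have h3 : p ∣ x := by exact_mod_cast h1
  rcases (Nat.dvd_prime h).1 h3 with h4 | h4
  · exact hp.one_lt.ne' h4
  · rw [h4] at h2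
    exact lt_irrefl _ h2

/-- largeness -/
lemma ev_c (δ : ℝ) (hδ : 0 < δ) : ∃ x₀ : ℝ, ∀ x : ℝ, x₀ ≤ x → 100 ≤ x ∧ 2 ≤ x ^ (δ / 2) ∧
    Real.log x / 2 ≤ Real.log (x / 3) ∧ 0 < Real.log (Real.log x) ∧
    Real.log (Real.log x) / 2 ≤ Real.log (Real.log (x / 3)) ∧
    Real.log x * Real.log (Real.log x) * x ≤ (x / 3) ^ 3 := by
  have t1 : Tendsto (fun Y : ℝ => Real.log (Real.log Y)) atTop atTop :=
    Real.tendsto_log_atTop.comp Real.tendsto_log_atTop
  have t2 : Tendsto (fun Y : ℝ => Y ^ (δ / 2)) atTop atTop := tendsto_rpow_atTop (by positivity)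
  have h3 : ∀ᶠ x : ℝ in atTop, Real.log x * Real.log (Real.log x) * x ≤ (x / 3) ^ 3 := by
    filter_upwards [(isLittleO_log_rpow_atTop (show (0:ℝ) < 1 / 2 by norm_num)).def
      (show (0:ℝ) < 1 by norm_num), eventually_ge_atTop (100:ℝ), t1.eventually_ge_atTop 0]
      with x hx hx1 hx2
    have hl : 0 < Real.log x := Real.log_pos (by linarith)
    rw [Real.norm_eq_abs, Real.norm_eq_abs, abs_of_nonneg hl.le,
      abs_of_nonneg (Real.rpow_nonneg (by linarith) _), one_mul, ← Real.sqrt_eq_rpow] at hx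
    have h1 : Real.log (Real.log x) ≤ Real.log x :=
      (Real.log_le_sub_one_of_pos hl).trans (by linarith)
    have h2 : Real.log x * Real.log (Real.log x) ≤ x := by
      calc Real.log x * Real.log (Real.log x) ≤ √x * √x := by
            apply mul_le_mul hx (h1.trans hx) hx2 (Real.sqrt_nonneg _)
        _ = x := Real.mul_self_sqrt (by linarith)
    calc Real.log x * Real.log (Real.log x) * x ≤ x * x :=
          mul_le_mul_of_nonneg_right h2 (by linarith)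
      _ ≤ (x / 3) ^ 3 := by
          have : (x / 3) ^ 3 = (x / 27) * (x * x) := by ring
          rw [this]
          nlinarith [mul_pos (show (0:ℝ) < x by linarith) (show (0:ℝ) < x by linarith)]
  obtain ⟨x₀, hx₀⟩ := Filter.eventually_atTop.mp
    ((eventually_ge_atTop (100:ℝ)).and ((t2.eventually_ge_atTop 2).and
      ((t1.eventually_ge_atTop (max 1 (2 * Real.log 2))).and h3)))
  refine ⟨x₀, fun x hx => ?_⟩
  obtain ⟨a1, a2, a3, a4⟩ := hx₀ x hx
  have hl : 0 < Real.log x := Real.log_pos (by linarith)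
  have hll : 1 ≤ Real.log (Real.log x) := (le_max_left _ _).trans a3
  have hll2 : 2 * Real.log 2 ≤ Real.log (Real.log x) := (le_max_right _ _).trans a3
  have h5 : Real.log x / 2 ≤ Real.log (x / 3) := by
    have h6 : Real.log (x ^ (1 / 2 : ℝ)) ≤ Real.log (x / 3) := by
      apply Real.log_le_log (by positivity)
      rw [← Real.sqrt_eq_rpow, Real.sqrt_le_left (by positivity)]
      nlinarith
    rw [Real.log_rpow (by linarith)] at h6
    linarith
  refine ⟨a1, a2, h5, by linarith, ?_, a4⟩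
  have h6 : Real.log (Real.log x / 2) ≤ Real.log (Real.log (x / 3)) :=
    Real.log_le_log (by positivity) h5
  rw [Real.log_div hl.ne' (by norm_num)] at h6
  linarith

lemma classes_le (D q : ℕ) : classes D q ≤ q := by
  unfold classes
  exact (card_filter_le _ _).trans (by rw [card_range])

/-- the residue classes modulo `q` without small prime values -/
def EmptyClass (D q : ℕ) (T : ℝ) (b : ℕ) : Prop :=
  b < q ∧ Nat.Coprime (b ^ 2 + D) q ∧
    ∀ a : ℕ, a % q = b → (a : ℝ) + q ≤ T → ¬ (a ^ 2 + D).Prime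

theorem progressions (D : ℕ) (hD : 1 ≤ D) (δ : ℝ) (hδ : 0 < δ) (hδ1 : δ ≤ 1) :
    ∃ c : ℝ, 0 < c ∧ ∃ q₀ : ℕ, ∀ q : ℕ, q₀ ≤ q → (q : ℝ) ^ (1 - δ) ≤
      ({b : ℕ | EmptyClass D q (c * classes D q * Real.log q * Real.log (Real.log q)) b}.ncard : ℝ) := by
  classical
  obtain ⟨c₀, hc₀, Y₀, hf⟩ := freq D hD 3 (δ / 2) (by norm_num) (by positivity)
  obtain ⟨x₀, hev⟩ := ev_c δ hδ
  obtain ⟨c, hc⟩ : ∃ c : ℝ, c = min (c₀ / 4) 1 := ⟨_, rfl⟩
  have hc0 : 0 < c := by rw [hc]; exact lt_min (by positivity) one_pos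
  have hcc : c ≤ c₀ / 4 := by rw [hc]; exact min_le_left _ _
  have hc1 : c ≤ 1 := by rw [hc]; exact min_le_right _ _
  refine ⟨c, hc0, ⌈max (Y₀ + 1) x₀⌉₊, fun q hq => ?_⟩
  have hqR : max (Y₀ + 1) x₀ ≤ q := (Nat.le_ceil _).trans (by exact_mod_cast hq)
  obtain ⟨h1, h2, h3, h4, h5, h6⟩ := hev q ((le_max_right _ _).trans hqR)
  have hqY : Y₀ + 1 ≤ q := (le_max_left _ _).trans hqR
  have hq1 : 1 ≤ q := by
    have : (1:ℝ) ≤ q := by linarith
    exact_mod_cast this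
  obtain ⟨Y, hY⟩ : ∃ Y : ℝ, Y = (q : ℝ) - 1 := ⟨_, rfl⟩
  have hY3 : (q : ℝ) / 3 ≤ Y := by rw [hY]; linarith
  have hY0 : 0 < Y := by linarith
  obtain ⟨l₁, hl₁⟩ : ∃ l₁ : ℝ, l₁ = Real.log q := ⟨_, rfl⟩
  obtain ⟨l₂, hl₂⟩ : ∃ l₂ : ℝ, l₂ = Real.log (Real.log q) := ⟨_, rfl⟩
  rw [← hl₂, ← hl₁]
  have hl10 : 0 < l₁ := by rw [hl₁]; exact Real.log_pos (by linarith)
  have hlY : l₁ / 2 ≤ Real.log Y := by
    rw [hl₁]
    exact h3.trans (Real.log_le_log (by positivity) hY3)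
  have hllY : l₂ / 2 ≤ Real.log (Real.log Y) := by
    rw [hl₂]
    refine h5.trans (Real.log_le_log ?_ (Real.log_le_log (by positivity) hY3))
    have : 0 < Real.log (q : ℝ) / 2 := by rw [← hl₁]; positivity
    linarith
  have hl20 : 0 < l₂ := by rw [hl₂]; exact h4
  have hq0 : (0 : ℝ) < q := by linarith
  obtain ⟨J, hJ⟩ : ∃ J : ℕ, J = ⌊c * ((classes D q : ℝ) / q) * l₁ * l₂⌋₊ := ⟨_, rfl⟩
  have hcl : (0:ℝ) ≤ (classes D q : ℝ) / q := by positivity
  have hcl1 : (classes D q : ℝ) / q ≤ 1 := by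
    rw [div_le_one hq0]
    exact_mod_cast classes_le D q
  have hJle : (J : ℝ) ≤ c * ((classes D q : ℝ) / q) * l₁ * l₂ := by
    rw [hJ]; exact Nat.floor_le (by positivity)
  have hJ2 : (J : ℝ) * q ≤ Y ^ (3:ℝ) := by
    have h7 : (J : ℝ) ≤ l₁ * l₂ := by
      refine hJle.trans ?_
      calc c * ((classes D q : ℝ) / q) * l₁ * l₂ ≤ 1 * 1 * l₁ * l₂ := by gcongr
        _ = l₁ * l₂ := by ring
    have h8 : (q / 3 : ℝ) ^ 3 ≤ Y ^ 3 := pow_le_pow_left₀ (by positivity) hY3 3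
    have h9 : Y ^ (3:ℝ) = Y ^ 3 := by
      rw [← Real.rpow_natCast]; norm_num
    rw [h9]
    calc (J : ℝ) * q ≤ l₁ * l₂ * q := mul_le_mul_of_nonneg_right h7 hq0.le
      _ ≤ _ := by rw [hl₁, hl₂]; exact h6.trans h8
  have hY1 : 1 ≤ Y := by rw [hY]; linarith
  have hYq : (q : ℝ) ≤ Y ^ (3:ℝ) := by
    have h9 : Y ^ (3:ℝ) = Y ^ 3 := by
      rw [← Real.rpow_natCast]; norm_num
    rw [h9]
    have : Y = (q:ℝ) - 1 := hY
    nlinarith [pow_le_pow_left₀ (show (0:ℝ) ≤ 1 by norm_num) hY1 3, sq_nonneg (Y - 2), mul_nonneg (show 0 ≤ Y by linarith) (sq_nonneg (Y-1))]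
  obtain ⟨S, hS⟩ : ∃ S : Finset (ℤ × ℕ), S = (range J).image (fun j : ℕ => (((j * q : ℕ) : ℤ), 1)) :=
    ⟨_, rfl⟩
  have hScard : ∑ z ∈ S, (z.2 : ℝ) / (Nat.totient z.2 : ℝ) ≤ J := by
    have h7 : ∀ z ∈ S, (z.2 : ℝ) / (Nat.totient z.2 : ℝ) = 1 := by
      intro z hz
      rw [hS, mem_image] at hz
      obtain ⟨j, _, rfl⟩ := hz
      simp
    rw [sum_congr rfl h7]
    simp only [sum_const, nsmul_eq_mul, mul_one]
    rw [hS]
    exact_mod_cast card_image_le.trans (by rw [card_range])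
  have key := hf Y (by linarith) 0 q hq1 hYq S (by
    intro z hz
    rw [hS, mem_image] at hz
    obtain ⟨j, hj, rfl⟩ := hz
    rw [mem_range] at hj
    refine ⟨le_rfl, ?_, ?_⟩
    · have h7 : ((j * q : ℕ) : ℝ) ≤ (J : ℝ) * q := by
        have : j * q ≤ J * q := Nat.mul_le_mul_right _ hj.le
        exact_mod_cast this
      simp only [Int.cast_natCast, Nat.abs_cast]
      linarith
    · simp only [Nat.cast_one]
      linarith) (by
    refine hScard.trans (hJle.trans ?_)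
    calc c * ((classes D q : ℝ) / q) * l₁ * l₂ ≤ c₀ / 4 * ((classes D q : ℝ) / q) * l₁ * l₂ := by
          gcongr
      _ = c₀ * ((classes D q : ℝ) / q) * (l₁ / 2) * (l₂ / 2) := by ring
      _ ≤ _ := by
          apply mul_le_mul _ hllY (by positivity)
          · apply mul_nonneg (by positivity)
            linarith
          · apply mul_le_mul_of_nonneg_left hlY (by positivity))
  -- the power of `q`
  have hpow : (q : ℝ) ^ (1 - δ) ≤ Y ^ (1 - δ / 2) := by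
    have e1 : (q : ℝ) ^ (1 - δ / 2) = (q : ℝ) ^ (1 - δ) * (q : ℝ) ^ (δ / 2) := by
      rw [← Real.rpow_add hq0]; congr 1; ring
    have e2 : ((q : ℝ) / 2) ^ (1 - δ / 2) ≤ Y ^ (1 - δ / 2) :=
      Real.rpow_le_rpow (by positivity) (by rw [hY]; linarith) (by linarith)
    have e3 : (q : ℝ) ^ (1 - δ / 2) / 2 ≤ ((q : ℝ) / 2) ^ (1 - δ / 2) := by
      rw [Real.div_rpow hq0.le (by norm_num)]
      apply div_le_div_of_nonneg_left (by positivity) (by positivity)
      calc (2:ℝ) ^ (1 - δ / 2) ≤ 2 ^ (1:ℝ) :=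
            Real.rpow_le_rpow_of_exponent_le (by norm_num) (by linarith)
        _ = 2 := Real.rpow_one 2
    have e4 : (q : ℝ) ^ (1 - δ) ≤ (q : ℝ) ^ (1 - δ / 2) / 2 := by
      rw [e1, le_div_iff₀ (by norm_num)]
      exact mul_le_mul_of_nonneg_left h2 (by positivity)
    linarith
  refine hpow.trans (key.trans ?_)
  have hfin : {b : ℕ | EmptyClass D q (c * classes D q * l₁ * l₂) b}.Finite :=
    (Set.finite_Iio q).subset fun b hb => hb.1
  have hmap : ∀ n ∈ {n : ℤ | Good D q Y 0 S n}, n.toNat ∈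
      {b : ℕ | EmptyClass D q (c * classes D q * l₁ * l₂) b} := by
    intro n hn
    obtain ⟨g1, g2, g3, g4⟩ := hn
    obtain ⟨b, rfl⟩ := Int.eq_ofNat_of_zero_le g1.le
    rw [Int.toNat_natCast]
    have hbq : b < q := by
      have h7 : (b : ℝ) < q := by
        push_cast at g2
        rw [hY] at g2
        linarith
      exact_mod_cast h7
    refine ⟨hbq, ?_, ?_⟩
    · rw [← Nat.isCoprime_iff_coprime]
      push_cast
      exact g3
    · intro a hab haT
      have h7 : a = b + (a / q) * q := by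
        have := Nat.mod_add_div a q
        rw [hab] at this
        rw [mul_comm (a / q) q]
        omega
      have h8 : a / q < J := by
        have h9 : ((a / q : ℕ) : ℝ) + 1 ≤ c * ((classes D q : ℝ) / q) * l₁ * l₂ := by
          have e : c * ((classes D q : ℝ) / q) * l₁ * l₂ = (c * classes D q * l₁ * l₂) / q := by
            ring
          rw [e, le_div_iff₀ hq0]
          have h10 : (((a / q) * q : ℕ) : ℝ) ≤ a := by exact_mod_cast Nat.div_mul_le_self a q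
          push_cast at h10
          linarith
        have h10 : a / q + 1 ≤ J := by
          rw [hJ]
          apply Nat.le_floor
          push_cast
          exact h9
        omega
      obtain ⟨p, hp, _, hp3, hp4⟩ := g4 ((((a / q) * q : ℕ) : ℤ), 1) (by
        rw [hS, mem_image]
        exact ⟨a / q, mem_range.2 h8, rfl⟩)
      have h9 : ((b : ℤ) + (((a / q) * q : ℕ) : ℤ)) ^ 2 + (D : ℤ) * ((1 : ℕ) : ℤ) ^ 2 =
          ((a ^ 2 + D : ℕ) : ℤ) := by
        have h10 : (b : ℤ) + (((a / q) * q : ℕ) : ℤ) = (a : ℤ) := by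
          rw [← Nat.cast_add, ← h7]
        rw [h10]
        push_cast
        ring
      simp only at hp3 hp4
      rw [h9] at hp3 hp4
      exact not_prime_of hp hp3 hp4
  have hinj : Set.InjOn Int.toNat {n : ℤ | Good D q Y 0 S n} := by
    intro a ha b hb hab
    have h1 := ha.1
    have h2 := hb.1
    omega
  exact_mod_cast Set.ncard_le_ncard_of_injOn Int.toNat hmap hinj hfin

theorem complements (D : ℕ) (hD : 1 ≤ D) : ∃ c : ℝ, 0 < c ∧ ∀ A : Set ℕ,
    (∃ n₀ : ℕ, ∀ n : ℕ, n₀ ≤ n → ∃ a ∈ A, ∃ b : ℕ, (b ^ 2 + D).Prime ∧ n = a + b) →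
    ∃ N₀ : ℕ, ∀ N : ℕ, N₀ ≤ N →
      c * Real.log N * Real.log (Real.log N) < ((A ∩ Set.Iic N).ncard : ℝ) := by
  classical
  obtain ⟨c₀, hc₀, Y₀, hf⟩ := freq D hD 3 1 (by norm_num) (by norm_num)
  obtain ⟨x₀, hev⟩ := ev_c 1 (by norm_num)
  refine ⟨c₀ / 4, by positivity, fun A hA => ?_⟩
  obtain ⟨n₀, hn₀⟩ := hA
  refine ⟨⌈max (3 * Y₀) x₀⌉₊ + 2 * n₀ + 2, fun N hN => ?_⟩
  by_contra hcon
  push Not at hcon
  have hNR : max (3 * Y₀) x₀ ≤ N := by
    refine (Nat.le_ceil _).trans ?_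
    exact_mod_cast (by omega : ⌈max (3 * Y₀) x₀⌉₊ ≤ N)
  obtain ⟨h1, h2, h3, h4, h5, h6⟩ := hev N ((le_max_right _ _).trans hNR)
  have hNY : 3 * Y₀ ≤ N := (le_max_left _ _).trans hNR
  obtain ⟨Y, hY⟩ : ∃ Y : ℝ, Y = ((N / 2 : ℕ) : ℝ) := ⟨_, rfl⟩
  have hY3 : (N : ℝ) / 3 ≤ Y := by
    rw [hY]
    have h7 : (N : ℝ) ≤ 2 * ((N / 2 : ℕ) : ℝ) + 1 := by
      exact_mod_cast (by omega : N ≤ 2 * (N / 2) + 1)
    linarith
  have hY0 : 0 < Y := by linarith
  have hN0 : (0:ℝ) < N := by linarith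
  obtain ⟨l₁, hl₁⟩ : ∃ l₁ : ℝ, l₁ = Real.log N := ⟨_, rfl⟩
  obtain ⟨l₂, hl₂⟩ : ∃ l₂ : ℝ, l₂ = Real.log (Real.log N) := ⟨_, rfl⟩
  rw [← hl₂, ← hl₁] at hcon
  have hl10 : 0 < l₁ := by rw [hl₁]; exact Real.log_pos (by linarith)
  have hlY : l₁ / 2 ≤ Real.log Y := by
    rw [hl₁]
    exact h3.trans (Real.log_le_log (by positivity) hY3)
  have hllY : l₂ / 2 ≤ Real.log (Real.log Y) := by
    rw [hl₂]
    refine h5.trans (Real.log_le_log ?_ (Real.log_le_log (by positivity) hY3))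
    have : 0 < Real.log (N : ℝ) / 2 := by rw [← hl₁]; positivity
    linarith
  have hl20 : 0 < l₂ := by rw [hl₂]; exact h4
  have hfinA : (A ∩ Set.Iic N).Finite := (Set.finite_Iic N).subset Set.inter_subset_right
  obtain ⟨S, hS⟩ : ∃ S : Finset (ℤ × ℕ), S = hfinA.toFinset.image (fun a : ℕ => (-(a : ℤ), 1)) :=
    ⟨_, rfl⟩
  have hScard : ∑ z ∈ S, (z.2 : ℝ) / (Nat.totient z.2 : ℝ) ≤ ((A ∩ Set.Iic N).ncard : ℝ) := by
    have h7 : ∀ z ∈ S, (z.2 : ℝ) / (Nat.totient z.2 : ℝ) = 1 := by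
      intro z hz
      rw [hS, mem_image] at hz
      obtain ⟨j, _, rfl⟩ := hz
      simp
    rw [sum_congr rfl h7]
    simp only [sum_const, nsmul_eq_mul, mul_one]
    rw [hS, Set.ncard_eq_toFinset_card _ hfinA]
    exact_mod_cast card_image_le
  have hY1 : 1 ≤ Y := by linarith
  have h9 : Y ^ (3:ℝ) = Y ^ 3 := by
    rw [← Real.rpow_natCast]; norm_num
  have hYN : (N : ℝ) ≤ Y ^ (3:ℝ) := by
    rw [h9]
    have h10 : (N : ℝ) ≤ 3 * Y := by linarith
    have h11 : 3 ≤ Y ^ 2 := by nlinarith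
    calc (N : ℝ) ≤ 3 * Y := h10
      _ ≤ Y ^ 2 * Y := mul_le_mul_of_nonneg_right h11 hY0.le
      _ = Y ^ 3 := by ring
  have hcl : classes D 1 = 1 := by
    unfold classes
    simp
  have key := hf Y (by linarith) ((N / 2 : ℕ) : ℤ) 1 le_rfl (by
      rw [Nat.cast_one]
      linarith) S (by
    intro z hz
    rw [hS, mem_image] at hz
    obtain ⟨a, ha, rfl⟩ := hz
    rw [Set.Finite.mem_toFinset] at ha
    have h10 : (a : ℝ) ≤ N := by exact_mod_cast ha.2
    refine ⟨le_rfl, ?_, ?_⟩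
    · simp only [Int.cast_neg, Int.cast_natCast, abs_neg, Nat.abs_cast]
      linarith
    · simp only [Nat.cast_one]
      linarith) (by
    refine hScard.trans (hcon.trans ?_)
    rw [hcl]
    simp only [Nat.cast_one, div_one, mul_one]
    calc c₀ / 4 * l₁ * l₂ = c₀ * (l₁ / 2) * (l₂ / 2) := by ring
      _ ≤ _ := by
          apply mul_le_mul _ hllY (by positivity)
          · apply mul_nonneg (by positivity)
            linarith
          · apply mul_le_mul_of_nonneg_left hlY (by positivity))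
  have h10 : 0 < {n : ℤ | Good D 1 Y ((N / 2 : ℕ) : ℤ) S n}.ncard := by
    have : (0:ℝ) < ({n : ℤ | Good D 1 Y ((N / 2 : ℕ) : ℤ) S n}.ncard : ℝ) :=
      lt_of_lt_of_le (by positivity) key
    exact_mod_cast this
  obtain ⟨n, hn⟩ := Set.nonempty_of_ncard_ne_zero h10.ne'
  obtain ⟨g1, g2, _, g4⟩ := hn
  obtain ⟨x, rfl⟩ := Int.eq_ofNat_of_zero_le (show 0 ≤ n by
    have : (0:ℤ) ≤ ((N / 2 : ℕ) : ℤ) := by positivity
    linarith)
  have hx1 : N / 2 < x := by exact_mod_cast g1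
  have hx2 : x ≤ N := by
    rw [hY] at g2
    have h11 : (x : ℝ) ≤ ((N / 2 : ℕ) : ℝ) + ((N / 2 : ℕ) : ℝ) := by
      simp only [Int.cast_natCast] at g2
      exact g2
    rw [← Nat.cast_add] at h11
    have h12 : x ≤ N / 2 + N / 2 := Nat.cast_le.1 h11
    omega
  obtain ⟨a, ha, b, hb, hab⟩ := hn₀ x (by omega)
  obtain ⟨p, hp, _, hp3, hp4⟩ := g4 (-(a : ℤ), 1) (by
    rw [hS, mem_image]
    refine ⟨a, ?_, rfl⟩
    rw [Set.Finite.mem_toFinset]
    exact ⟨ha, by show a ≤ N; omega⟩)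
  have h11 : ((x : ℤ) + -(a : ℤ)) ^ 2 + (D : ℤ) * ((1 : ℕ) : ℤ) ^ 2 = ((b ^ 2 + D : ℕ) : ℤ) := by
    rw [hab]
    push_cast
    ring
  simp only at hp3 hp4
  rw [h11] at hp3 hp4
  exact not_prime_of hp hp3 hp4 hb

end Pool.Agent.J6H61.GC
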