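import Pool.Agent.J6H61.GC.Thm2
import Pool.Agent.J6H61.GC.Cls

set_option autoImplicit false

/-! # Many integers `n` -/

namespace Pool.Agent.J6H61.GC

open Polynomial Finset Filter
open Pool.Agent.H474R2.PG (rho PR Sg)

/-- `n` is in `(M, M + Y]`, `n² + D` is prime to `q`, and for all `(s, m) ∈ S` the positive integer
`(n + s)² + D m²` has a prime factor `p ≤ exp ((log Y) ^ (1/20))` smaller than itself. -/
def Good (D q : ℕ) (Y : ℝ) (M : ℤ) (S : Finset (ℤ × ℕ)) (n : ℤ) : Prop :=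
  M < n ∧ (n : ℝ) ≤ M + Y ∧ IsCoprime (n ^ 2 + (D : ℤ)) (q : ℤ) ∧
    ∀ z ∈ S, ∃ p : ℕ, p.Prime ∧ (p : ℝ) ≤ Real.exp ((Real.log Y) ^ (1 / 20 : ℝ)) ∧
      (p : ℤ) ∣ (n + z.1) ^ 2 + (D : ℤ) * (z.2 : ℤ) ^ 2 ∧
      (p : ℤ) < (n + z.1) ^ 2 + (D : ℤ) * (z.2 : ℤ) ^ 2

lemma good_finite (D q : ℕ) (Y : ℝ) (M : ℤ) (S : Finset (ℤ × ℕ)) :
    {n : ℤ | Good D q Y M S n}.Finite := by
  apply (Set.finite_Ioc M ⌊(M : ℝ) + Y⌋).subset
  intro n hn
  exact ⟨hn.1, Int.le_floor.2 hn.2.1⟩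

/-- largeness -/
lemma ev_f (η : ℝ) (hη : 0 < η) (hη1 : η ≤ 1 / 2) (Z₀ : ℝ) : ∃ Y₀ : ℝ, ∀ Y : ℝ, Y₀ ≤ Y →
    1 ≤ Y ∧ Y ^ (η / 2) ≤ (⌊Y ^ η⌋₊ : ℝ) ∧ Z₀ ≤ (⌊Y ^ η⌋₊ : ℝ) ∧
    Real.log (Real.log Y) / 2 ≤ Real.log (Real.log (⌊Y ^ η⌋₊ : ℝ)) ∧
    0 < Real.log (Real.log Y) ∧
    Y ^ (1 - 2 * η) + 1 ≤ Y ^ (1 - η) := by
  have t0 : Tendsto (fun Y : ℝ => Y ^ (η / 2)) atTop atTop := tendsto_rpow_atTop (by positivity)
  have t1 : Tendsto (fun Y : ℝ => Real.log (Real.log Y)) atTop atTop :=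
    Real.tendsto_log_atTop.comp Real.tendsto_log_atTop
  have t2 : Tendsto (fun Y : ℝ => Y ^ η) atTop atTop := tendsto_rpow_atTop hη
  obtain ⟨Y₀, hY₀⟩ := Filter.eventually_atTop.mp
    ((t0.eventually_ge_atTop (max 2 Z₀)).and ((t1.eventually_ge_atTop
      (max 1 (2 * Real.log (2 / η)))).and ((eventually_ge_atTop (1:ℝ)).and
        (t2.eventually_ge_atTop 2))))
  refine ⟨Y₀, fun Y hY => ?_⟩
  obtain ⟨h1, h2, h3, h6⟩ := hY₀ Y hY
  have hY0 : 0 < Y := by linarith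
  have e1 : Y ^ η = Y ^ (η / 2) * Y ^ (η / 2) := by
    rw [← Real.rpow_add hY0]; congr 1; ring
  have h4 : 2 ≤ Y ^ (η / 2) := (le_max_left _ _).trans h1
  have h5 : Z₀ ≤ Y ^ (η / 2) := (le_max_right _ _).trans h1
  have hfl : Y ^ (η / 2) ≤ (⌊Y ^ η⌋₊ : ℝ) := by
    have := Nat.lt_floor_add_one (Y ^ η)
    nlinarith
  have hll : 1 ≤ Real.log (Real.log Y) := (le_max_left _ _).trans h2
  have hll2 : 2 * Real.log (2 / η) ≤ Real.log (Real.log Y) := (le_max_right _ _).trans h2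
  have hlY : 0 < Real.log Y := by
    by_contra hc
    push Not at hc
    have h6 := Real.log_nonneg h3
    have h7 : Real.log Y = 0 := le_antisymm hc h6
    rw [h7, Real.log_zero] at hll
    linarith
  refine ⟨h3, hfl, h5.trans hfl, ?_, by linarith, ?_⟩
  · have h7 : Real.log (Y ^ (η / 2)) ≤ Real.log (⌊Y ^ η⌋₊ : ℝ) := Real.log_le_log (by positivity) hfl
    rw [Real.log_rpow hY0] at h7
    have h8 : Real.log (η / 2 * Real.log Y) ≤ Real.log (Real.log (⌊Y ^ η⌋₊ : ℝ)) :=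
      Real.log_le_log (by positivity) h7
    rw [Real.log_mul (by positivity) hlY.ne'] at h8
    have h9 : Real.log (η / 2) = -Real.log (2 / η) := by
      rw [← Real.log_inv, inv_div]
    rw [h9] at h8
    linarith
  · have e2 : Y ^ (1 - η) = Y ^ (1 - 2 * η) * Y ^ η := by
      rw [← Real.rpow_add hY0]; congr 1; ring
    have h7 : 1 ≤ Y ^ (1 - 2 * η) := Real.one_le_rpow h3 (by linarith)
    rw [e2]
    nlinarith

theorem freq (D : ℕ) (hD : 1 ≤ D) (K δ : ℝ) (hK : 0 ≤ K) (hδ : 0 < δ) :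
    ∃ c : ℝ, 0 < c ∧ ∃ Y₀ : ℝ, ∀ Y : ℝ, Y₀ ≤ Y → ∀ (M : ℤ) (q : ℕ), 1 ≤ q → (q : ℝ) ≤ Y ^ K →
      ∀ (S : Finset (ℤ × ℕ)), (∀ z ∈ S, 1 ≤ z.2 ∧ |(z.1 : ℝ)| ≤ Y ^ K ∧ (z.2 : ℝ) ≤ Y ^ K) →
      ∑ z ∈ S, (z.2 : ℝ) / (Nat.totient z.2 : ℝ) ≤
        c * ((classes D q : ℝ) / q) * Real.log Y * Real.log (Real.log Y) →
      Y ^ (1 - δ) ≤ ({n : ℤ | Good D q Y M S n}.ncard : ℝ) := by
  obtain ⟨η, hη⟩ : ∃ η : ℝ, η = min δ 1 / 2 := ⟨_, rfl⟩
  have hη0 : 0 < η := by rw [hη]; have : 0 < min δ 1 := lt_min hδ one_pos; linarith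
  have hη1 : η ≤ 1 / 2 := by rw [hη]; have := min_le_right δ 1; linarith
  have hηδ : 2 * η ≤ δ := by rw [hη]; have := min_le_left δ 1; linarith
  obtain ⟨c₀, hc₀, hc₀1, Z₀, hmain⟩ := main_q D hD (2 * K / η) (by positivity)
  obtain ⟨Y₀, hev⟩ := ev_f η hη0 hη1 Z₀
  refine ⟨c₀ * η / 4, by positivity, Y₀, fun Y hY M q hq hqK S hS hw => ?_⟩
  obtain ⟨h1, h2, h3, h4, h5, h6⟩ := hev Y hY
  have hY0 : 0 < Y := by linarith
  obtain ⟨Z, hZ⟩ : ∃ Z : ℕ, Z = ⌊Y ^ η⌋₊ := ⟨_, rfl⟩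
  rw [← hZ] at h2 h3 h4
  have hYη : 1 ≤ Y ^ (η / 2) := Real.one_le_rpow h1 (by positivity)
  have hZ1 : (1 : ℝ) ≤ Z := hYη.trans h2
  have hZ0 : (0 : ℝ) < Z := by linarith
  have hZle : (Z : ℝ) ≤ Y ^ η := by rw [hZ]; exact Nat.floor_le (by positivity)
  have hZY : (Z : ℝ) ≤ Y := hZle.trans (by
    calc Y ^ η ≤ Y ^ (1 : ℝ) := Real.rpow_le_rpow_of_exponent_le h1 (by linarith)
      _ = Y := Real.rpow_one Y)
  have hYK : Y ^ K ≤ (Z : ℝ) ^ (2 * K / η) := by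
    calc Y ^ K = (Y ^ (η / 2)) ^ (2 * K / η) := by
          rw [← Real.rpow_mul hY0.le]
          congr 1
          field_simp
      _ ≤ _ := Real.rpow_le_rpow (by positivity) h2 (by positivity)
  have hkap : (classes D q : ℝ) / q = kap D q := by
    rw [classes_eq D q hq]
    have : (q : ℝ) ≠ 0 := by exact_mod_cast (by omega : q ≠ 0)
    field_simp
  rw [hkap] at hw
  have hlZ : η / 2 * Real.log Y ≤ Real.log Z := by
    rw [← Real.log_rpow hY0]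
    exact Real.log_le_log (by positivity) h2
  have hlY : 0 ≤ Real.log Y := Real.log_nonneg h1
  have hw' : ∑ z ∈ S, (z.2 : ℝ) / (Nat.totient z.2 : ℝ) ≤
      c₀ * kap D q * Real.log Z * Real.log (Real.log Z) := by
    refine hw.trans ?_
    have hk := kap_nonneg D q
    calc c₀ * η / 4 * kap D q * Real.log Y * Real.log (Real.log Y) =
          c₀ * kap D q * (η / 2 * Real.log Y) * (Real.log (Real.log Y) / 2) := by ring
      _ ≤ _ := by
          have h7 : 0 ≤ Real.log (Real.log Y) / 2 := by linarith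
          have h8 : 0 ≤ Real.log Z := Real.log_nonneg hZ1
          apply mul_le_mul _ h4 h7 (by positivity)
          apply mul_le_mul_of_nonneg_left hlZ (by positivity)
  have hex : ∀ i : ℕ, ∃ n : ℤ, M + i * Z < n ∧ n ≤ M + (i + 1) * Z ∧
      (∀ p ∈ q.primeFactors, ¬ (p : ℤ) ∣ (ff D).eval n) ∧ ∀ z ∈ S, ∃ p : ℕ, p.Prime ∧
        (p : ℝ) ≤ Real.exp ((Real.log Y) ^ (1 / 20 : ℝ)) ∧ (p : ℤ) ∣ val D n z ∧
        (p : ℤ) < val D n z := by
    intro i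
    obtain ⟨n, a1, a2, a3, a4⟩ := hmain Z h3 (M + i * Z) q hq (hqK.trans hYK) S
      (fun z hz => ⟨(hS z hz).1, (hS z hz).2.1.trans hYK, (hS z hz).2.2.trans hYK⟩) hw'
    refine ⟨n, a1, ?_, a3, fun z hz => ?_⟩
    · have : (n : ℝ) ≤ ((M + (i + 1) * Z : ℤ) : ℝ) := by
        push_cast at a2 ⊢
        linarith
      exact_mod_cast this
    · obtain ⟨p, b1, b2, b3, b4⟩ := a4 z hz
      refine ⟨p, b1, b2.trans ?_, b3, b4⟩
      apply Real.exp_le_exp.mpr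
      apply Real.rpow_le_rpow (Real.log_nonneg hZ1) (Real.log_le_log hZ0 hZY) (by norm_num)
  choose f hf1 hf2 hf3 hf4 using hex
  have hinj : Function.Injective f := by
    intro i j hij
    by_contra hne
    rcases lt_or_gt_of_ne hne with h | h
    · have b1 := hf2 i
      have b2 := hf1 j
      rw [hij] at b1
      have b3 : (i : ℤ) + 1 ≤ j := by exact_mod_cast h
      have b4 : ((i : ℤ) + 1) * Z ≤ j * Z := mul_le_mul_of_nonneg_right b3 (by positivity)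
      linarith
    · have b1 := hf2 j
      have b2 := hf1 i
      rw [← hij] at b1
      have b3 : (j : ℤ) + 1 ≤ i := by exact_mod_cast h
      have b4 : ((j : ℤ) + 1) * Z ≤ i * Z := mul_le_mul_of_nonneg_right b3 (by positivity)
      linarith
  obtain ⟨k, hk⟩ : ∃ k : ℕ, k = ⌊Y / Z⌋₊ := ⟨_, rfl⟩
  have hkZ : (k : ℝ) * Z ≤ Y := by
    rw [← le_div_iff₀ hZ0, hk]
    exact Nat.floor_le (by positivity)
  have hsub : (((range k).image f : Finset ℤ) : Set ℤ) ⊆ {n : ℤ | Good D q Y M S n} := by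
    intro n hn
    rw [Finset.mem_coe, Finset.mem_image] at hn
    obtain ⟨i, hi, rfl⟩ := hn
    rw [Finset.mem_range] at hi
    refine ⟨?_, ?_, (coprime_iff D q hq _).2 (hf3 i), ?_⟩
    · have h7 := hf1 i
      have h8 : (0:ℤ) ≤ i * Z := by positivity
      linarith
    · have h7 : ((f i : ℤ) : ℝ) ≤ M + ((i : ℝ) + 1) * Z := by
        have := hf2 i
        exact_mod_cast this
      have h8 : (i : ℝ) + 1 ≤ k := by exact_mod_cast hi
      have h9 : ((i : ℝ) + 1) * Z ≤ k * Z := mul_le_mul_of_nonneg_right h8 hZ0.le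
      linarith
    · intro z hz
      exact hf4 i z hz
  have hcard := Set.ncard_le_ncard hsub (good_finite D q Y M S)
  rw [Set.ncard_coe_finset, Finset.card_image_of_injective _ hinj, Finset.card_range] at hcard
  have h7 : (k : ℝ) ≤ ({n : ℤ | Good D q Y M S n}.ncard : ℝ) := by exact_mod_cast hcard
  refine le_trans ?_ h7
  have h8 : Y / Z < k + 1 := by rw [hk]; exact Nat.lt_floor_add_one _
  have h9 : Y ^ (1 - η) ≤ Y / Z := by
    rw [le_div_iff₀ hZ0]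
    calc Y ^ (1 - η) * Z ≤ Y ^ (1 - η) * Y ^ η := mul_le_mul_of_nonneg_left hZle (by positivity)
      _ = Y := by rw [← Real.rpow_add hY0]; simp
  have h10 : Y ^ (1 - δ) ≤ Y ^ (1 - 2 * η) := Real.rpow_le_rpow_of_exponent_le h1 (by linarith)
  linarith

end Pool.Agent.J6H61.GC
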