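import Pool.Agent.J6H61.GC.RoughG
import Pool.Agent.W154.PV.CovD

set_option autoImplicit false

/-! # Points of `ℤ × ℕ` at which `(n + s)² + D m²` has a small prime factor -/

namespace Pool.Agent.J6H61.GC

open Polynomial Finset Filter
open Pool.Agent.H474R2.PG (rho PR Sg WW WW_le WW_pos PR_prime PR_le PR_not_dvd)
open Pool.Agent.H474R2.PG.RoughAux (mem_PR)
open Pool.Agent.H426R3.SQ (SP R1aux_mem_SP)

/-- a piece of the interval which is far from all the `-s` -/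
lemma piece (S : Finset (ℤ × ℕ)) (M : ℤ) (H : ℕ) (T : ℝ) (hT : T < H) :
    ∃ j : ℕ, j ≤ S.card ∧ ∀ z ∈ S, ∀ n : ℤ, M + 3 * j * H < n → n ≤ M + 3 * j * H + H →
      T < |((n + z.1 : ℤ) : ℝ)| := by
  classical
  by_contra hcon
  push Not at hcon
  have h1 : ∀ j : ℕ, ∃ z : ℤ × ℕ, ∃ n : ℤ, j ∈ range (S.card + 1) → (z ∈ S ∧
      M + 3 * j * H < n ∧ n ≤ M + 3 * j * H + H ∧ |((n + z.1 : ℤ) : ℝ)| ≤ T) := by
    intro j
    by_cases hj : j ≤ S.card
    · obtain ⟨z, hz, n, hn1, hn2, hn3⟩ := hcon j hj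
      exact ⟨z, n, fun _ => ⟨hz, hn1, hn2, hn3⟩⟩
    · exact ⟨(0, 0), 0, fun h => absurd (Nat.lt_succ_iff.1 (mem_range.1 h)) hj⟩
  choose f g hfg using h1
  obtain ⟨i, hi, j, hj, hij, he⟩ := Finset.exists_ne_map_eq_of_card_lt_of_maps_to
    (s := range (S.card + 1)) (t := S) (f := f) (by rw [card_range]; omega)
    (fun j hj => (hfg j hj).1)
  have key : ∀ i j : ℕ, i ∈ range (S.card + 1) → j ∈ range (S.card + 1) → i < j → f i = f j →
      False := by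
    intro i j hi hj hlt he
    obtain ⟨-, a1, a2, a3⟩ := hfg i hi
    obtain ⟨-, b1, b2, b3⟩ := hfg j hj
    rw [← he] at b3
    have h2 : (M : ℝ) + 3 * j * H < (g j : ℤ) := by exact_mod_cast b1
    have h3 : ((g i : ℤ) : ℝ) ≤ M + 3 * i * H + H := by exact_mod_cast a2
    have h4 := abs_le.1 a3
    have h5 := abs_le.1 b3
    push_cast at h4 h5
    have h6 : (i : ℝ) + 1 ≤ j := by exact_mod_cast hlt
    have hH : (0 : ℝ) ≤ H := Nat.cast_nonneg H
    have h7 : (3 * (i : ℝ) + 3) * H ≤ 3 * j * H := by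
      apply mul_le_mul_of_nonneg_right _ hH
      linarith
    nlinarith [h4.1, h4.2, h5.1, h5.2]
  rcases lt_or_gt_of_ne hij with h | h
  · exact key i j hi hj h he
  · exact key j i hj hi h he.symm

/-- largeness -/
lemma ev (D : ℕ) (K c₀ : ℝ) : ∃ L₀ : ℝ, ∀ L : ℝ, L₀ ≤ L → 10000 ≤ L ∧
    10 * Real.log 2 ≤ Real.log L ∧ Real.exp (9 / 10 * L) + 1 ≤ Real.exp L / (4 * (L ^ 2 + 1)) ∧
    L / 100 ≤ Real.exp (L ^ (1 / 20 : ℝ)) ∧ Real.exp (L ^ (1 / 20 : ℝ)) < Real.exp (9 / 10 * L) ∧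
    (c₀ + c₀ ^ 2) * (2 * (4 * K + 1)) ≤ L ∧ Real.log (16 * ((D : ℝ) + 1) ^ 2) ≤ L ∧
    Real.log L ≤ L ∧ Real.log L / 2 ≤ Real.log (L / 100) := by
  have h1 := (isLittleO_pow_exp_pos_mul_atTop (k := 2) (b := (1 / 10 : ℝ)) (by norm_num)).def
    (show (0:ℝ) < 1 / 16 by norm_num)
  have h2 : ∀ᶠ L : ℝ in atTop, 10 * Real.log 2 ≤ Real.log L :=
    Real.tendsto_log_atTop.eventually_ge_atTop _
  have h3 : ∀ᶠ L : ℝ in atTop, Real.log L ≤ L ^ (1 / 20 : ℝ) := by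
    filter_upwards [(isLittleO_log_rpow_atTop (show (0:ℝ) < 1 / 20 by norm_num)).def
      (show (0:ℝ) < 1 by norm_num), eventually_ge_atTop (1:ℝ)] with L hL hL1
    rw [Real.norm_eq_abs, Real.norm_eq_abs, abs_of_nonneg (Real.log_nonneg hL1),
      abs_of_nonneg (Real.rpow_nonneg (by linarith) _), one_mul] at hL
    exact hL
  obtain ⟨L₀, hL₀⟩ := Filter.eventually_atTop.mp
    (h1.and (h2.and (h3.and ((eventually_ge_atTop (10000 : ℝ)).and
      ((eventually_ge_atTop ((c₀ + c₀ ^ 2) * (2 * (4 * K + 1)))).and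
        (eventually_ge_atTop (Real.log (16 * ((D : ℝ) + 1) ^ 2))))))))
  refine ⟨L₀, fun L hL => ?_⟩
  obtain ⟨e1, e2, e3, e4, e5, e6⟩ := hL₀ L hL
  have hL0 : 0 < L := by linarith
  rw [Real.norm_eq_abs, Real.norm_eq_abs, abs_of_nonneg (Real.exp_pos _).le,
    abs_of_nonneg (by positivity)] at e1
  have hlog0 : 0 < Real.log L := Real.log_pos (by linarith)
  refine ⟨e4, e2, ?_, ?_, ?_, e5, e6, ?_, ?_⟩
  · rw [le_div_iff₀ (by positivity)]
    have h5 : Real.exp L = Real.exp (9 / 10 * L) * Real.exp (1 / 10 * L) := by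
      rw [← Real.exp_add]; congr 1; ring
    have h6 : 1 ≤ Real.exp (9 / 10 * L) := Real.one_le_exp (by positivity)
    have h7 : 1 ≤ L ^ 2 := one_le_pow₀ (by linarith)
    rw [h5]
    calc (Real.exp (9 / 10 * L) + 1) * (4 * (L ^ 2 + 1)) ≤
          (2 * Real.exp (9 / 10 * L)) * (8 * L ^ 2) := by
          apply mul_le_mul _ _ (by positivity) (by positivity) <;> linarith
      _ = Real.exp (9 / 10 * L) * (16 * L ^ 2) := by ring
      _ ≤ Real.exp (9 / 10 * L) * Real.exp (1 / 10 * L) := by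
          apply mul_le_mul_of_nonneg_left _ (Real.exp_pos _).le
          linarith
  · have h5 : L = Real.exp (Real.log L) := (Real.exp_log hL0).symm
    calc L / 100 ≤ L := by linarith
      _ = Real.exp (Real.log L) := h5
      _ ≤ _ := Real.exp_le_exp.mpr e3
  · apply Real.exp_lt_exp.mpr
    have h5 : L ^ (1 / 20 : ℝ) ≤ L ^ (1 / 2 : ℝ) :=
      Real.rpow_le_rpow_of_exponent_le (by linarith) (by norm_num)
    have h6 : L ^ (1 / 2 : ℝ) ≤ L / 100 := by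
      rw [← Real.sqrt_eq_rpow, Real.sqrt_le_left (by positivity)]
      nlinarith
    linarith
  · exact (Real.log_le_sub_one_of_pos hL0).trans (by linarith)
  · rw [Real.log_div hL0.ne' (by norm_num)]
    have h5 : Real.log 100 ≤ Real.log L / 2 := by
      have h6 : Real.log (100 ^ 2) ≤ Real.log L := Real.log_le_log (by norm_num) (by linarith)
      rw [Real.log_pow] at h6
      push_cast at h6
      linarith
    linarith

/-- the error term -/
lemma err (D : ℕ) (L : ℝ) (hL : 10000 ≤ L) (hlog : 10 * Real.log 2 ≤ Real.log L)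
    (T : Finset ℕ) (hT : ∀ p ∈ T, p.Prime ∧ L ^ 5 < (p : ℝ))
    (hTX : ∏ p ∈ T, (p : ℝ) ≤ Real.exp (1 / 4 * L)) :
    ∏ p ∈ T, (rho (ff D) p : ℝ) ≤ Real.exp (L / 40) := by
  have hL0 : 0 < L := by linarith
  have hLA : ∀ p ∈ T, L < (p : ℝ) := by
    intro p hp
    have h1 : L ≤ L ^ 5 := le_self_pow₀ (by linarith) (by norm_num)
    linarith [(hT p hp).2]
  have h1 : ∏ p ∈ T, (rho (ff D) p : ℝ) ≤ ∏ p ∈ T, (2 : ℝ) := by
    apply Finset.prod_le_prod
    · intro p _; positivity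
    · intro p hp
      exact_mod_cast rho_le_two D p (hT p hp).1
  rw [Finset.prod_const] at h1
  have h2 : L ^ T.card ≤ ∏ p ∈ T, (p : ℝ) := by
    have : L ^ T.card = ∏ p ∈ T, L := by rw [Finset.prod_const]
    rw [this]
    exact Finset.prod_le_prod (fun _ _ => hL0.le) (fun p hp => (hLA p hp).le)
  have h3 : (T.card : ℝ) * Real.log L ≤ 1 / 4 * L := by
    have h4 := h2.trans hTX
    have h5 := Real.log_le_log (by positivity) h4
    rw [Real.log_pow, Real.log_exp] at h5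
    exact h5
  refine h1.trans ?_
  have h6 : (2 : ℝ) ^ T.card = Real.exp (T.card * Real.log 2) := by
    rw [Real.exp_nat_mul, Real.exp_log (by norm_num)]
  rw [h6]
  apply Real.exp_le_exp.mpr
  have h7 : (T.card : ℝ) * (10 * Real.log 2) ≤ T.card * Real.log L :=
    mul_le_mul_of_nonneg_left hlog (Nat.cast_nonneg _)
  linarith

/-- size of the resultants -/
lemma res_size (D : ℕ) (V : ℝ) (hV : 1 ≤ V) (z z' : ℤ × ℕ) (h1 : |(z.1 : ℝ)| ≤ V)
    (h2 : (z.2 : ℝ) ≤ V) (h3 : |(z'.1 : ℝ)| ≤ V) (h4 : (z'.2 : ℝ) ≤ V) :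
    ((res D z z').natAbs : ℝ) ≤ 16 * ((D : ℝ) + 1) ^ 2 * V ^ 4 := by
  rw [Nat.cast_natAbs]
  have hpos : 0 ≤ res D z z' := by unfold res; positivity
  rw [abs_of_nonneg hpos]
  unfold res
  push_cast
  have a1 := abs_le.1 h1
  have a3 := abs_le.1 h3
  have b2 : (0 : ℝ) ≤ z.2 := Nat.cast_nonneg _
  have b4 : (0 : ℝ) ≤ z'.2 := Nat.cast_nonneg _
  have hD : (0 : ℝ) ≤ D := Nat.cast_nonneg _
  have c1 : ((z.1 : ℝ) - z'.1) ^ 2 ≤ (2 * V) ^ 2 := by
    apply sq_le_sq'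
    · linarith [a1.1, a3.2]
    · linarith [a1.2, a3.1]
  have c2 : ((z.2 : ℝ) - z'.2) ^ 2 ≤ (2 * V) ^ 2 := by
    apply sq_le_sq' <;> linarith
  have c3 : ((z.2 : ℝ) + z'.2) ^ 2 ≤ (2 * V) ^ 2 := by
    apply sq_le_sq' <;> linarith
  have d2 := mul_le_mul_of_nonneg_left c2 hD
  have d3 := mul_le_mul_of_nonneg_left c3 hD
  calc (((z.1 : ℝ) - z'.1) ^ 2 + (D : ℝ) * ((z.2 : ℝ) - z'.2) ^ 2) *
        (((z.1 : ℝ) - z'.1) ^ 2 + (D : ℝ) * ((z.2 : ℝ) + z'.2) ^ 2)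
      ≤ ((2 * V) ^ 2 + D * (2 * V) ^ 2) * ((2 * V) ^ 2 + D * (2 * V) ^ 2) := by
        apply mul_le_mul (by linarith) (by linarith) (by positivity) (by positivity)
    _ = _ := by ring

end Pool.Agent.J6H61.GC
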