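import Pool.Agent.J6H61.GC.Cnt
import Pool.Agent.J6H61.GC.Main

set_option autoImplicit false

/-! # The modulus -/

namespace Pool.Agent.J6H61.GC

open Polynomial Finset Filter
open Pool.Agent.H474R2.PG (rho PR Sg PR_prime rho_le_self)

/-- the proportion of the residue classes `b` modulo `q` with `b² + D` prime to `q` -/
noncomputable def kap (D q : ℕ) : ℝ :=
  ∏ p ∈ q.primeFactors, (1 - (rho (ff D) p : ℝ) / (p : ℝ))

lemma rho_lt (D p : ℕ) (hp : p.Prime) : rho (ff D) p < p := by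
  rcases hp.two_le.eq_or_lt with h2 | h3
  · subst h2
    unfold rho
    have h : ((range 2).filter (fun a : ℕ => ((2 : ℕ) : ℤ) ∣ (ff D).eval (a : ℤ))) ⊂ range 2 := by
      rw [Finset.ssubset_iff_of_subset (filter_subset _ _)]
      rcases Nat.even_or_odd D with hD | hD
      · refine ⟨1, by simp, ?_⟩
        rw [mem_filter, ff_eval, not_and]
        intro _ hc
        obtain ⟨k, hk⟩ := hD
        subst hk
        push_cast at hc
        omega
      · refine ⟨0, by simp, ?_⟩
        rw [mem_filter, ff_eval, not_and]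
        intro _ hc
        obtain ⟨k, hk⟩ := hD
        subst hk
        push_cast at hc
        omega
    have := card_lt_card h
    rwa [card_range] at this
  · exact lt_of_le_of_lt (rho_le_two D p hp) h3

lemma kap_le_one (D q : ℕ) : kap D q ≤ 1 := by
  unfold kap
  apply prod_le_one
  · intro p hp
    exact Pool.Agent.N201.SP.fac_nonneg _ (Nat.prime_of_mem_primeFactors hp)
  · intro p _
    have : (0:ℝ) ≤ (rho (ff D) p : ℝ) / (p : ℝ) := by positivity
    linarith

lemma kap_nonneg (D q : ℕ) : 0 ≤ kap D q := by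
  unfold kap
  exact prod_nonneg fun p hp =>
    Pool.Agent.N201.SP.fac_nonneg _ (Nat.prime_of_mem_primeFactors hp)

lemma exp_kap (D q : ℕ) :
    Real.exp (∑ p ∈ q.primeFactors, (rho (ff D) p : ℝ) / (p : ℝ)) * kap D q ≤ 1 := by
  unfold kap
  rw [Real.exp_sum, ← prod_mul_distrib]
  apply prod_le_one
  · intro p hp
    exact mul_nonneg (Real.exp_pos _).le
      (Pool.Agent.N201.SP.fac_nonneg _ (Nat.prime_of_mem_primeFactors hp))
  · intro p _
    obtain ⟨x, hx⟩ : ∃ x : ℝ, x = (rho (ff D) p : ℝ) / (p : ℝ) := ⟨_, rfl⟩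
    rw [← hx]
    have h1 := Real.add_one_le_exp (-x)
    calc Real.exp x * (1 - x) ≤ Real.exp x * Real.exp (-x) :=
          mul_le_mul_of_nonneg_left (by linarith) (Real.exp_pos _).le
      _ = 1 := by rw [← Real.exp_add]; simp

/-- a class which is not a root -/
lemma nonroot (D p : ℕ) (hp : p.Prime) : ∃ a : ℤ, ¬ (p : ℤ) ∣ (ff D).eval a := by
  by_contra hcon
  push Not at hcon
  have h := rho_lt D p hp
  unfold rho at h
  have h' : (range p).filter (fun a : ℕ => (p : ℤ) ∣ (ff D).eval (a : ℤ)) = range p :=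
    filter_true_of_mem (fun a _ => hcon a)
  rw [h', card_range] at h
  exact lt_irrefl _ h

/-- the product over the small primes which do not divide the modulus -/
lemma prod_small_q (D : ℕ) (q : ℕ) (hq : 1 ≤ q) (z : ℤ × ℕ) (hm : 1 ≤ z.2) (w : ℝ) :
    ∏ p ∈ (PR w).filter (fun p => ¬ p ∣ q), (1 - (rho (pol D z) p : ℝ) / (p : ℝ)) ≤
      Real.exp (-(Sg (rho (ff D)) w)) *
        (Real.exp (∑ p ∈ q.primeFactors, (rho (ff D) p : ℝ) / (p : ℝ)) *
          ((z.2 : ℝ) / (Nat.totient z.2 : ℝ))) := by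
  have hpr : ∀ p ∈ PR w, p.Prime := fun p hp => (Finset.mem_filter.mp hp).2
  have h1 : ∏ p ∈ (PR w).filter (fun p => ¬ p ∣ q), (1 - (rho (pol D z) p : ℝ) / (p : ℝ)) ≤
      Real.exp (-(∑ p ∈ (PR w).filter (fun p => ¬ p ∣ q), (rho (pol D z) p : ℝ) / (p : ℝ))) := by
    rw [← Finset.sum_neg_distrib, Real.exp_sum]
    apply Finset.prod_le_prod
    · intro p hp
      exact Pool.Agent.N201.SP.fac_nonneg _ (hpr p (mem_filter.1 hp).1)
    · intro p _
      have := Real.add_one_le_exp (-((rho (pol D z) p : ℝ) / (p : ℝ)))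
      linarith
  have h2 : Sg (rho (ff D)) w - ∑ p ∈ q.primeFactors, (rho (ff D) p : ℝ) / (p : ℝ) -
      ∑ p ∈ z.2.primeFactors, 1 / (p : ℝ) ≤
      ∑ p ∈ (PR w).filter (fun p => ¬ p ∣ q), (rho (pol D z) p : ℝ) / (p : ℝ) := by
    have h3 : ∑ p ∈ (PR w).filter (fun p => ¬ p ∣ q),
        ((rho (ff D) p : ℝ) - (if p ∣ z.2 then 1 else 0)) / (p : ℝ) ≤
        ∑ p ∈ (PR w).filter (fun p => ¬ p ∣ q), (rho (pol D z) p : ℝ) / (p : ℝ) := by
      apply Finset.sum_le_sum
      intro p hp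
      exact div_le_div_of_nonneg_right (rho_pol_ge D z p (hpr p (mem_filter.1 hp).1)) (by positivity)
    refine le_trans ?_ h3
    simp_rw [sub_div]
    rw [Finset.sum_sub_distrib]
    apply sub_le_sub
    · unfold Sg
      rw [← Finset.sum_filter_add_sum_filter_not (PR w) (fun p : ℕ => p ∣ q)]
      have h4 : ∑ p ∈ (PR w).filter (fun p => p ∣ q), (rho (ff D) p : ℝ) / (p : ℝ) ≤
          ∑ p ∈ q.primeFactors, (rho (ff D) p : ℝ) / (p : ℝ) := by
        apply Finset.sum_le_sum_of_subset_of_nonneg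
        · intro p hp
          rw [Finset.mem_filter] at hp
          rw [Nat.mem_primeFactors]
          exact ⟨hpr p hp.1, hp.2, by omega⟩
        · intro p _ _
          positivity
      linarith
    · have h4 : ∑ p ∈ (PR w).filter (fun p => ¬ p ∣ q), (if p ∣ z.2 then (1:ℝ) else 0) / (p : ℝ) =
          ∑ p ∈ ((PR w).filter (fun p => ¬ p ∣ q)).filter (fun p => p ∣ z.2), 1 / (p : ℝ) := by
        rw [Finset.sum_filter (fun p => p ∣ z.2)]
        refine Finset.sum_congr rfl fun p _ => ?_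
        split_ifs <;> simp
      rw [h4]
      apply Finset.sum_le_sum_of_subset_of_nonneg
      · intro p hp
        rw [Finset.mem_filter, Finset.mem_filter] at hp
        rw [Nat.mem_primeFactors]
        exact ⟨hpr p hp.1.1, hp.2, by omega⟩
      · intro p _ _
        positivity
  refine h1.trans ?_
  calc Real.exp (-(∑ p ∈ (PR w).filter (fun p => ¬ p ∣ q), (rho (pol D z) p : ℝ) / (p : ℝ)))
      ≤ Real.exp (-(Sg (rho (ff D)) w) + (∑ p ∈ q.primeFactors, (rho (ff D) p : ℝ) / (p : ℝ) +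
          ∑ p ∈ z.2.primeFactors, 1 / (p : ℝ))) := by
        apply Real.exp_le_exp.mpr
        linarith
    _ = Real.exp (-(Sg (rho (ff D)) w)) *
        (Real.exp (∑ p ∈ q.primeFactors, (rho (ff D) p : ℝ) / (p : ℝ)) *
          Real.exp (∑ p ∈ z.2.primeFactors, 1 / (p : ℝ))) := by
        rw [Real.exp_add, Real.exp_add]
    _ ≤ _ := by
        apply mul_le_mul_of_nonneg_left _ (Real.exp_pos _).le
        exact mul_le_mul_of_nonneg_left (exp_le_tot z.2 hm) (Real.exp_pos _).le

/-- largeness -/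
lemma ev_q (K : ℝ) : ∃ L₀ : ℝ, ∀ L : ℝ, L₀ ≤ L → 80 * K ≤ Real.log (L / 100) ∧ 2 * K ≤ L := by
  have h1 : Tendsto (fun L : ℝ => Real.log (L / 100)) atTop atTop :=
    Real.tendsto_log_atTop.comp (tendsto_id.atTop_div_const (by norm_num))
  obtain ⟨L₀, hL₀⟩ := Filter.eventually_atTop.mp
    ((h1.eventually_ge_atTop (80 * K)).and (eventually_ge_atTop (2 * K)))
  exact ⟨L₀, fun L hL => hL₀ L hL⟩

/-- few large primes divide the modulus -/
lemma card_U (K L : ℝ) (hL : 10000 ≤ L) (hK : 0 ≤ K) (h80 : 80 * K ≤ Real.log (L / 100)) (q : ℕ)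
    (hq : 1 ≤ q) (hqK : (q : ℝ) ≤ Real.exp (K * L)) :
    ((q.primeFactors.filter (fun p : ℕ => L / 100 < (p : ℝ))).card : ℝ) ≤ L / 80 := by
  obtain ⟨U, hU⟩ : ∃ U, U = q.primeFactors.filter (fun p : ℕ => L / 100 < (p : ℝ)) := ⟨_, rfl⟩
  rw [← hU]
  have hLp : 0 < L / 100 := by linarith
  have h1 : (L / 100) ^ U.card ≤ (q : ℝ) := by
    have h2 : (L / 100) ^ U.card ≤ ∏ p ∈ U, (p : ℝ) := by
      rw [← prod_const]
      refine prod_le_prod (fun _ _ => hLp.le) fun p hp => ?_
      rw [hU, mem_filter] at hp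
      exact hp.2.le
    have h3 : ∏ p ∈ U, p ≤ q := by
      have h4 : ∏ p ∈ U, p ∣ q := by
        refine dvd_trans (prod_dvd_prod_of_subset _ _ _ ?_) (Nat.prod_primeFactors_dvd q)
        rw [hU]
        exact filter_subset _ _
      exact Nat.le_of_dvd hq h4
    refine h2.trans ?_
    have h5 : ((∏ p ∈ U, p : ℕ) : ℝ) ≤ q := by exact_mod_cast h3
    rwa [Nat.cast_prod] at h5
  have h2 := Real.log_le_log (by positivity) (h1.trans hqK)
  rw [Real.log_pow, Real.log_exp] at h2
  have hlog : 0 < Real.log (L / 100) := Real.log_pos (by linarith)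
  rcases hK.eq_or_lt with hK0 | hK0
  · rw [← hK0, zero_mul] at h2
    have : (U.card : ℝ) ≤ 0 := by
      by_contra hc
      push Not at hc
      have := mul_pos hc hlog
      linarith
    linarith
  · have h3 : (U.card : ℝ) * (80 * K) ≤ U.card * Real.log (L / 100) :=
      mul_le_mul_of_nonneg_left h80 (Nat.cast_nonneg _)
    have h4 : K * (80 * U.card) ≤ K * L := by linarith
    have h5 := le_of_mul_le_mul_left h4 hK0
    linarith

lemma prod_U_le (D : ℕ) (U : Finset ℕ) (hU : ∀ p ∈ U, p.Prime) (L : ℝ)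
    (hc : (U.card : ℝ) ≤ L / 80) :
    ∏ p ∈ U, (1 + (rho (ff D) p : ℝ)) ≤ Real.exp (L / 40) := by
  calc ∏ p ∈ U, (1 + (rho (ff D) p : ℝ)) ≤ ∏ p ∈ U, Real.exp 2 := by
        refine prod_le_prod (fun p _ => by positivity) fun p hp => ?_
        have h1 : (rho (ff D) p : ℝ) ≤ 2 := by exact_mod_cast rho_le_two D p (hU p hp)
        have := Real.add_one_le_exp (2 : ℝ)
        linarith
    _ = Real.exp (U.card * 2) := by rw [prod_const, ← Real.exp_nat_mul]
    _ ≤ _ := Real.exp_le_exp.mpr (by linarith)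

lemma prod_U_ge (D : ℕ) (U : Finset ℕ) (hU : ∀ p ∈ U, p.Prime ∧ 3 ≤ p) (L : ℝ)
    (hc : (U.card : ℝ) ≤ L / 80) :
    Real.exp (-(L / 40)) ≤ ∏ p ∈ U, (1 - (rho (ff D) p : ℝ) / (p : ℝ)) := by
  calc Real.exp (-(L / 40)) ≤ Real.exp (U.card * (-2)) := Real.exp_le_exp.mpr (by linarith)
    _ = ∏ p ∈ U, Real.exp (-2) := by rw [prod_const, ← Real.exp_nat_mul]
    _ ≤ _ := by
        refine prod_le_prod (fun p _ => (Real.exp_pos _).le) fun p hp => ?_
        have h1 : (rho (ff D) p : ℝ) ≤ 2 := by exact_mod_cast rho_le_two D p (hU p hp).1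
        have h3 : (3 : ℝ) ≤ p := by exact_mod_cast (hU p hp).2
        have h4 : (rho (ff D) p : ℝ) / (p : ℝ) ≤ 2 / 3 := by
          rw [div_le_div_iff₀ (by linarith) (by norm_num)]
          linarith
        have h5 : Real.exp (-2) ≤ 1 / 3 := by
          rw [Real.exp_neg, inv_le_comm₀ (Real.exp_pos _) (by norm_num)]
          have := Real.add_one_le_exp (2 : ℝ)
          norm_num
          linarith
        linarith

end Pool.Agent.J6H61.GC
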