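import Pool.Agent.J6H61.GC.Bad

set_option autoImplicit false

/-! # The rough sums without the excluded primes -/

namespace Pool.Agent.J6H61.GC

open Polynomial Finset Filter
open Pool.Agent.H474R2.PG (rho PR Sg)
open Pool.Agent.H474R2.PG.RoughAux (mem_PR)
open Pool.Agent.H426R3.SQ (SP R1aux_mem_SP)

lemma sum_split (D : ℕ) (L w : ℝ) (hL : 1 ≤ L) (B : Finset ℕ) (hB : (B.card : ℝ) ≤ L ^ 5)
    (hw : L ^ 5 ≤ w) :
    Sg (rho (ff D)) w ≤ ∑ p ∈ SP (L ^ 3) w B, gg D (L ^ 5) B p + (Sg (rho (ff D)) (L ^ 5) + 2) := by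
  classical
  have hL0 : 0 < L := by linarith
  have hL5 : 0 < L ^ 5 := by positivity
  have hw0 : 0 ≤ w := by linarith
  have hterm : ∀ p : ℕ, 0 ≤ (rho (ff D) p : ℝ) / (p : ℝ) := fun p => by positivity
  unfold Sg
  rw [← Finset.sum_filter_add_sum_filter_not (PR w) (fun p : ℕ => L ^ 5 < (p : ℝ) ∧ p ∉ B)]
  apply add_le_add
  · have h1 : ∑ p ∈ (PR w).filter (fun p : ℕ => L ^ 5 < (p : ℝ) ∧ p ∉ B),
        (rho (ff D) p : ℝ) / (p : ℝ) =
        ∑ p ∈ (PR w).filter (fun p : ℕ => L ^ 5 < (p : ℝ) ∧ p ∉ B), gg D (L ^ 5) B p := by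
      refine Finset.sum_congr rfl fun p hp => ?_
      rw [Finset.mem_filter, mem_PR hw0] at hp
      unfold gg
      rw [if_pos ⟨hp.1.1, hp.2.1, hp.2.2⟩]
    rw [h1]
    apply Finset.sum_le_sum_of_subset_of_nonneg
    · intro p hp
      rw [Finset.mem_filter, mem_PR hw0] at hp
      rw [R1aux_mem_SP hw0]
      refine ⟨hp.1, ?_, hp.2.2⟩
      have : L ^ 3 ≤ L ^ 5 := pow_le_pow_right₀ hL (by norm_num)
      linarith [hp.2.1]
    · intro p _ _
      exact gg_nonneg _ _ _ _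
  · have h2 : (PR w).filter (fun p : ℕ => ¬ (L ^ 5 < (p : ℝ) ∧ p ∉ B)) ⊆
        PR (L ^ 5) ∪ B.filter (fun p : ℕ => p.Prime ∧ L ^ 5 < (p : ℝ)) := by
      intro p hp
      rw [Finset.mem_filter, mem_PR hw0] at hp
      rw [Finset.mem_union, mem_PR hL5.le, Finset.mem_filter]
      by_cases h : L ^ 5 < (p : ℝ)
      · right
        by_contra hc
        apply hp.2
        refine ⟨h, fun hb => hc ⟨hb, hp.1.1, h⟩⟩
      · left
        exact ⟨hp.1.1, not_lt.1 h⟩
    have h3 : ∑ p ∈ B.filter (fun p : ℕ => p.Prime ∧ L ^ 5 < (p : ℝ)),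
        (rho (ff D) p : ℝ) / (p : ℝ) ≤ 2 := by
      calc ∑ p ∈ B.filter (fun p : ℕ => p.Prime ∧ L ^ 5 < (p : ℝ)),
            (rho (ff D) p : ℝ) / (p : ℝ)
          ≤ ∑ p ∈ B.filter (fun p : ℕ => p.Prime ∧ L ^ 5 < (p : ℝ)), 2 / L ^ 5 := by
            refine Finset.sum_le_sum fun p hp => ?_
            rw [Finset.mem_filter] at hp
            have h4 : (rho (ff D) p : ℝ) ≤ 2 := by exact_mod_cast rho_le_two D p hp.2.1
            calc (rho (ff D) p : ℝ) / (p : ℝ) ≤ 2 / (p : ℝ) :=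
                  div_le_div_of_nonneg_right h4 (by positivity)
              _ ≤ 2 / L ^ 5 := div_le_div_of_nonneg_left (by norm_num) hL5 hp.2.2.le
        _ = ((B.filter (fun p : ℕ => p.Prime ∧ L ^ 5 < (p : ℝ))).card : ℝ) * (2 / L ^ 5) := by
            rw [Finset.sum_const, nsmul_eq_mul]
        _ ≤ L ^ 5 * (2 / L ^ 5) := by
            apply mul_le_mul_of_nonneg_right _ (by positivity)
            refine le_trans ?_ hB
            exact_mod_cast Finset.card_filter_le _ _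
        _ = 2 := by field_simp
    calc ∑ p ∈ (PR w).filter (fun p : ℕ => ¬ (L ^ 5 < (p : ℝ) ∧ p ∉ B)),
          (rho (ff D) p : ℝ) / (p : ℝ)
        ≤ ∑ p ∈ PR (L ^ 5) ∪ B.filter (fun p : ℕ => p.Prime ∧ L ^ 5 < (p : ℝ)),
          (rho (ff D) p : ℝ) / (p : ℝ) :=
          Finset.sum_le_sum_of_subset_of_nonneg h2 fun p _ _ => hterm p
      _ ≤ ∑ p ∈ PR (L ^ 5), (rho (ff D) p : ℝ) / (p : ℝ) +
          ∑ p ∈ B.filter (fun p : ℕ => p.Prime ∧ L ^ 5 < (p : ℝ)), (rho (ff D) p : ℝ) / (p : ℝ) := by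
          rw [← Finset.sum_union_inter]
          have : 0 ≤ ∑ p ∈ PR (L ^ 5) ∩ B.filter (fun p : ℕ => p.Prime ∧ L ^ 5 < (p : ℝ)),
            (rho (ff D) p : ℝ) / (p : ℝ) := Finset.sum_nonneg fun p _ => hterm p
          linarith
      _ ≤ _ := by linarith

theorem rough_gg (D : ℕ) (hD : 1 ≤ D) : ∃ c₂ : ℝ, 0 < c₂ ∧ ∃ L₀ : ℝ, ∀ L : ℝ, L₀ ≤ L →
    ∀ B : Finset ℕ, (B.card : ℝ) ≤ L ^ 5 → ∀ z x : ℝ, L ^ 3 ≤ x → x ≤ z →
      c₂ * Real.log x / Real.log L - 1 ≤
        ∑ s ∈ ((SP (L ^ 3) z B).powerset.filter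
            (fun s : Finset ℕ => s.Nonempty ∧ ∏ p ∈ s, (p : ℝ) ≤ x)), ∏ p ∈ s, gg D (L ^ 5) B p := by
  obtain ⟨C₁, hC₁0, hC₁⟩ := Pool.Agent.N201.SP.mertens_two (ff D) (ff_irr D hD)
    (by rw [ff_natDegree]; norm_num)
  obtain ⟨c₂, hc₂, y₀, hy₀, hR⟩ := Pool.Agent.W154.PV.rough_lowerD 2 (2 * C₁ + 4) (by norm_num)
  refine ⟨c₂ / 3, by positivity, max y₀ 3, fun L hL B hB z x h1 h2 => ?_⟩
  have hL1 : y₀ ≤ L := (le_max_left _ _).trans hL
  have hL3 : 3 ≤ L := (le_max_right _ _).trans hL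
  have hL0 : 0 < L := by linarith
  have hLL3 : L ≤ L ^ 3 := le_self_pow₀ (by linarith) (by norm_num)
  have hL35 : L ^ 3 ≤ L ^ 5 := pow_le_pow_right₀ (by linarith) (by norm_num)
  have hlL : 0 < Real.log L := Real.log_pos (by linarith)
  have hlog3 : Real.log (L ^ 3) = 3 * Real.log L := by
    rw [Real.log_pow]; norm_num
  have hlog5 : Real.log (L ^ 5) = 5 * Real.log L := by
    rw [Real.log_pow]; norm_num
  have hll3 : Real.log (Real.log (L ^ 3)) = Real.log 3 + Real.log (Real.log L) := by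
    rw [hlog3, Real.log_mul (by norm_num) hlL.ne']
  have hll5 : Real.log (Real.log (L ^ 5)) = Real.log 5 + Real.log (Real.log L) := by
    rw [hlog5, Real.log_mul (by norm_num) hlL.ne']
  have h53 : Real.log 5 - Real.log 3 ≤ 2 := by
    rw [← Real.log_div (by norm_num) (by norm_num)]
    have := Real.log_le_sub_one_of_pos (show (0:ℝ) < 5 / 3 by norm_num)
    linarith
  have key := hR (L ^ 3) z B (gg D (L ^ 5) B) (hL1.trans hLL3)
    (fun p => ⟨gg_nonneg _ _ _ p, gg_le _ _ _ p⟩) (by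
      intro w hw1 hw2
      rcases le_or_gt w (L ^ 5) with hw | hw
      · have h3 : Real.log (Real.log w) ≤ Real.log (Real.log (L ^ 5)) := by
          apply Real.log_le_log
          · apply Real.log_pos
            linarith
          · apply Real.log_le_log (by linarith) hw
        have h4 : 0 ≤ ∑ p ∈ SP (L ^ 3) w B, gg D (L ^ 5) B p :=
          Finset.sum_nonneg fun p _ => gg_nonneg _ _ _ p
        linarith
      · have h3 := sum_split D L w (by linarith) B hB hw.le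
        have h4 := (abs_le.1 (hC₁ w (by linarith))).1
        have h5 := (abs_le.1 (hC₁ (L ^ 5) (by linarith))).2
        linarith) x h1 h2
  rw [hlog3] at key
  have e : c₂ / 3 * Real.log x / Real.log L = c₂ * Real.log x / (3 * Real.log L) := by
    field_simp
  rw [e]
  exact key

end Pool.Agent.J6H61.GC
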