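import Pool.Agent.J6H61.GC.Mod
import Pool.Agent.W154.PV.CovD

set_option autoImplicit false

/-! # The covering theorem for the points of `ℤ × ℕ` -/

namespace Pool.Agent.J6H61.GC

open Polynomial Finset Filter
open Pool.Agent.H474R2.PG (rho PR Sg WW WW_le WW_pos PR_prime PR_le PR_not_dvd)
open Pool.Agent.H474R2.PG.RoughAux (mem_PR)
open Pool.Agent.H426R3.SQ (SP R1aux_mem_SP)

open scoped Classical in
theorem main_q (D : ℕ) (hD : 1 ≤ D) (K : ℝ) (hK : 0 ≤ K) : ∃ c : ℝ, 0 < c ∧ c ≤ 1 ∧ ∃ Y₀ : ℝ,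
    ∀ Y : ℝ, Y₀ ≤ Y → ∀ (M : ℤ) (q : ℕ), 1 ≤ q → (q : ℝ) ≤ Y ^ K → ∀ (S : Finset (ℤ × ℕ)),
      (∀ z ∈ S, 1 ≤ z.2 ∧ |(z.1 : ℝ)| ≤ Y ^ K ∧ (z.2 : ℝ) ≤ Y ^ K) →
      ∑ z ∈ S, (z.2 : ℝ) / (Nat.totient z.2 : ℝ) ≤
        c * kap D q * Real.log Y * Real.log (Real.log Y) →
      ∃ n : ℤ, M < n ∧ (n : ℝ) ≤ M + Y ∧ (∀ p ∈ q.primeFactors, ¬ (p : ℤ) ∣ (ff D).eval n) ∧ ∀ z ∈ S, ∃ p : ℕ, p.Prime ∧
        (p : ℝ) ≤ Real.exp ((Real.log Y) ^ (1 / 20 : ℝ)) ∧ (p : ℤ) ∣ val D n z ∧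
        (p : ℤ) < val D n z := by
  obtain ⟨C₁, hC₁0, hC₁⟩ := Pool.Agent.N201.SP.mertens_two (ff D) (ff_irr D hD)
    (by rw [ff_natDegree]; norm_num)
  obtain ⟨c₂, hc₂, L₁, hRG⟩ := rough_gg D hD
  obtain ⟨c₀, hc₀, X₀, hcov⟩ := Pool.Agent.W154.PV.covering_hitD 2 c₂ (by norm_num) hc₂
  obtain ⟨L₂, hev⟩ := ev D K c₀
  obtain ⟨L₃, hevq⟩ := ev_q K
  obtain ⟨c, hc⟩ : ∃ c : ℝ, c = min 1 (c₀ * Real.exp (-C₁) / 2) := ⟨_, rfl⟩
  have hc0 : 0 < c := by rw [hc]; exact lt_min one_pos (by positivity)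
  have hc1 : c ≤ 1 := by rw [hc]; exact min_le_left _ _
  have hcc : c ≤ c₀ * Real.exp (-C₁) / 2 := by rw [hc]; exact min_le_right _ _
  refine ⟨c, hc0, hc1, max X₀ (Real.exp (max L₁ (max L₂ L₃))),
    fun Y hY M q hq hqK S hS hw => ?_⟩
  have hYX : X₀ ≤ Y := (le_max_left _ _).trans hY
  have hYe : Real.exp (max L₁ (max L₂ L₃)) ≤ Y := (le_max_right _ _).trans hY
  have hY0 : 0 < Y := lt_of_lt_of_le (Real.exp_pos _) hYe
  obtain ⟨L, hL⟩ : ∃ L, L = Real.log Y := ⟨_, rfl⟩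
  have hLmax : max L₁ (max L₂ L₃) ≤ L := by
    rw [hL, ← Real.log_exp (max L₁ (max L₂ L₃))]
    exact Real.log_le_log (Real.exp_pos _) hYe
  have hYexp : Y = Real.exp L := by rw [hL]; exact (Real.exp_log hY0).symm
  obtain ⟨f1, f2, f3, f4, f5, f6, f7, f8, f9⟩ := hev L ((le_max_left _ _).trans
    ((le_max_right _ _).trans hLmax))
  obtain ⟨g1, g2⟩ := hevq L ((le_max_right _ _).trans ((le_max_right _ _).trans hLmax))
  have hRG' := hRG L ((le_max_left _ _).trans hLmax)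
  rw [← hL] at hw
  have hL0 : 0 < L := by linarith
  obtain ⟨l, hl⟩ : ∃ l, l = Real.log L := ⟨_, rfl⟩
  rw [← hl] at hw f2 f8 f9
  have hl0 : 0 < l := by rw [hl]; exact Real.log_pos (by linarith)
  have hYr : ∀ s : ℝ, Y ^ s = Real.exp (s * L) := by
    intro s
    rw [hYexp, ← Real.exp_mul, mul_comm]
  obtain ⟨T, hT⟩ : ∃ T, T = Real.exp (L ^ (1 / 20 : ℝ)) := ⟨_, rfl⟩
  rw [← hT] at f4 f5
  have hT1 : 1 ≤ T := by
    rw [hT]
    exact Real.one_le_exp (Real.rpow_nonneg hL0.le _)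
  -- the number of points
  have hScard : (S.card : ℝ) ≤ L ^ 2 := by
    have h1 : (S.card : ℝ) ≤ ∑ z ∈ S, (z.2 : ℝ) / (Nat.totient z.2 : ℝ) := by
      have : (S.card : ℝ) = ∑ z ∈ S, (1 : ℝ) := by simp
      rw [this]
      apply Finset.sum_le_sum
      intro z hz
      have h2 : (0:ℝ) < Nat.totient z.2 := by exact_mod_cast Nat.totient_pos.2 (hS z hz).1
      rw [le_div_iff₀ h2, one_mul]
      exact_mod_cast Nat.totient_le z.2
    have h3 : c * kap D q * L * l ≤ L ^ 2 := by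
      have h4 : c * kap D q * L * l ≤ 1 * 1 * L * L := by
        have := kap_le_one D q
        have := kap_nonneg D q
        gcongr
      linarith [h4, sq L]
    linarith
  -- the piece
  obtain ⟨H, hH⟩ : ∃ H : ℕ, H = ⌊Y / (4 * (S.card + 1))⌋₊ := ⟨_, rfl⟩
  have hSc0 : (0 : ℝ) ≤ (S.card : ℝ) := Nat.cast_nonneg _
  have hS1 : (0 : ℝ) < 4 * ((S.card : ℝ) + 1) := by linarith
  have hHle : (H : ℝ) ≤ Y / (4 * (S.card + 1)) := by
    rw [hH]; exact Nat.floor_le (div_nonneg hY0.le hS1.le)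
  have hHge : Real.exp (9 / 10 * L) ≤ H := by
    have h1 : Y / (4 * (S.card + 1)) < (H : ℝ) + 1 := by rw [hH]; exact Nat.lt_floor_add_one _
    have h2 : Real.exp L / (4 * (L ^ 2 + 1)) ≤ Y / (4 * (S.card + 1)) := by
      rw [← hYexp]
      apply div_le_div_of_nonneg_left hY0.le hS1
      linarith
    linarith
  obtain ⟨j, hj, hpiece⟩ := piece S M H T (by linarith)
  obtain ⟨A', hA'⟩ : ∃ A' : ℤ, A' = M + 3 * j * H := ⟨_, rfl⟩
  obtain ⟨B', hB'⟩ : ∃ B' : ℤ, B' = M + 3 * j * H + H := ⟨_, rfl⟩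
  have hAM : M ≤ A' := by
    rw [hA']
    have : (0:ℤ) ≤ 3 * j * H := by positivity
    linarith
  have hAB : A' ≤ B' := by
    rw [hA', hB']
    have : (0:ℤ) ≤ (H : ℤ) := by positivity
    linarith
  have hBA : (B' : ℝ) - A' = H := by
    rw [hA', hB']
    push_cast
    ring
  have hBM : (B' : ℝ) ≤ M + Y := by
    rw [hB']
    push_cast
    have h1 : (j : ℝ) ≤ S.card := by exact_mod_cast hj
    have h2 : (H : ℝ) * (4 * (S.card + 1)) ≤ Y := by
      rw [← le_div_iff₀ hS1]; exact hHle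
    have h3 : (0:ℝ) ≤ H := Nat.cast_nonneg _
    have h4 : 3 * (j : ℝ) * H ≤ 3 * S.card * H := by gcongr
    nlinarith
  -- small primes
  obtain ⟨w, hwd⟩ : ∃ w : ℝ, w = L / 100 := ⟨_, rfl⟩
  have hw0 : 0 ≤ w := by rw [hwd]; positivity
  obtain ⟨PQ, hPQ⟩ : ∃ PQ : Finset ℕ, PQ = (PR w).filter (fun p => ¬ p ∣ q) := ⟨_, rfl⟩
  have hPQpr : ∀ p ∈ PQ, p.Prime := fun p hp => by
    rw [hPQ, Finset.mem_filter] at hp
    exact PR_prime hp.1
  obtain ⟨a₀, ha₀⟩ := Pool.Agent.N201.SP.choose_poly PQ hPQpr (S.image (pol D))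
  have hnr : ∀ p : ℕ, ∃ a : ℤ, p.Prime → ¬ (p : ℤ) ∣ (ff D).eval a := by
    intro p
    by_cases hp : p.Prime
    · obtain ⟨a, ha⟩ := nonroot D p hp
      exact ⟨a, fun _ => ha⟩
    · exact ⟨0, fun h => absurd h hp⟩
  choose b₀ hb₀ using hnr
  obtain ⟨r, hr⟩ := Pool.Agent.H256R2.SC.crt_int (PR w) (fun p : ℕ => (p : ℤ))
    (fun i hi j hj hij => by
      rw [Nat.isCoprime_iff_coprime]
      exact (Nat.coprime_primes (PR_prime hi) (PR_prime hj)).2 hij)
    (fun p => if p ∣ q then b₀ p else a₀ p)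
  obtain ⟨Rs, hRs⟩ : ∃ Rs : Finset (ℤ × ℕ), Rs = S.filter
    (fun z => ∀ p ∈ PQ, ¬ (p : ℤ) ∣ val D r z) := ⟨_, rfl⟩
  have hRsS : ∀ z ∈ Rs, z ∈ S := fun z hz => by
    rw [hRs] at hz
    exact (Finset.mem_filter.1 hz).1
  have hrq : ∀ p ∈ PR w, p ∣ q → ¬ (p : ℤ) ∣ (ff D).eval r := by
    intro p hp hpq h
    have h1 := hr p hp
    rw [if_pos hpq] at h1
    exact hb₀ p (PR_prime hp)
      ((Pool.Agent.H474R2.PG.eval_dvd_congr (ff D) p r (b₀ p) h1).1 h)
  have hRs1 : (Rs.card : ℝ) ≤ ∑ z ∈ S, ∏ p ∈ PQ, (1 - (rho (pol D z) p : ℝ) / (p : ℝ)) := by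
    have h1 : Rs.card = ((S.image (pol D)).filter
        (fun f => ∀ p ∈ PQ, ¬ (p : ℤ) ∣ f.eval (a₀ p))).card := by
      rw [Finset.filter_image, Finset.card_image_of_injective _ (pol_inj D hD), hRs]
      congr 1
      refine Finset.filter_congr fun z _ => ?_
      refine forall₂_congr fun p hp => not_congr ?_
      rw [← pol_eval]
      rw [hPQ, Finset.mem_filter] at hp
      have h2 := hr p hp.1
      rw [if_neg hp.2] at h2
      exact Pool.Agent.H474R2.PG.eval_dvd_congr (pol D z) p r (a₀ p) h2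
    rw [h1]
    refine ha₀.trans (le_of_eq ?_)
    rw [Finset.sum_image (fun _ _ _ _ h => pol_inj D hD h)]
  have hw3 : 3 ≤ w := by rw [hwd]; linarith
  have hRs2 : (Rs.card : ℝ) ≤ c₀ * L := by
    have h1 : (Rs.card : ℝ) ≤ Real.exp (-(Sg (rho (ff D)) w)) * (c * L * l) := by
      refine hRs1.trans ?_
      obtain ⟨E, hE⟩ : ∃ E : ℝ, E = Real.exp (∑ p ∈ q.primeFactors,
        (rho (ff D) p : ℝ) / (p : ℝ)) := ⟨_, rfl⟩
      have hE0 : 0 ≤ E := by rw [hE]; exact (Real.exp_pos _).le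
      have hEk : E * kap D q ≤ 1 := by rw [hE]; exact exp_kap D q
      calc ∑ z ∈ S, ∏ p ∈ PQ, (1 - (rho (pol D z) p : ℝ) / (p : ℝ))
          ≤ ∑ z ∈ S, Real.exp (-(Sg (rho (ff D)) w)) *
            (E * ((z.2 : ℝ) / (Nat.totient z.2 : ℝ))) :=
            Finset.sum_le_sum fun z hz => by
              rw [hPQ, hE]
              exact prod_small_q D q hq z (hS z hz).1 w
        _ = Real.exp (-(Sg (rho (ff D)) w)) *
            (E * ∑ z ∈ S, (z.2 : ℝ) / (Nat.totient z.2 : ℝ)) := by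
            rw [Finset.mul_sum, Finset.mul_sum]
        _ ≤ Real.exp (-(Sg (rho (ff D)) w)) * (E * (c * kap D q * L * l)) := by
            apply mul_le_mul_of_nonneg_left _ (Real.exp_pos _).le
            exact mul_le_mul_of_nonneg_left hw hE0
        _ = Real.exp (-(Sg (rho (ff D)) w)) * ((E * kap D q) * (c * L * l)) := by ring
        _ ≤ Real.exp (-(Sg (rho (ff D)) w)) * (1 * (c * L * l)) := by
            apply mul_le_mul_of_nonneg_left _ (Real.exp_pos _).le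
            exact mul_le_mul_of_nonneg_right hEk (by positivity)
        _ = _ := by rw [one_mul]
    have h2 : Real.exp (-(Sg (rho (ff D)) w)) ≤ Real.exp C₁ * (2 / l) := by
      have h3 := (abs_le.1 (hC₁ w hw3)).1
      have h4 : 0 < Real.log w := Real.log_pos (by linarith)
      have h5 : Real.exp (-(Sg (rho (ff D)) w)) ≤ Real.exp (C₁ - Real.log (Real.log w)) := by
        apply Real.exp_le_exp.mpr
        linarith
      rw [Real.exp_sub, Real.exp_log h4] at h5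
      refine h5.trans ?_
      rw [← hwd] at f9
      rw [div_eq_mul_inv]
      apply mul_le_mul_of_nonneg_left _ (Real.exp_pos _).le
      rw [inv_le_comm₀ h4 (by positivity), inv_div]
      exact f9
    have h6 : Real.exp C₁ * Real.exp (-C₁) = 1 := by rw [← Real.exp_add]; simp
    calc (Rs.card : ℝ) ≤ Real.exp (-(Sg (rho (ff D)) w)) * (c * L * l) := h1
      _ ≤ (Real.exp C₁ * (2 / l)) * (c * L * l) :=
          mul_le_mul_of_nonneg_right h2 (by positivity)
      _ = 2 * Real.exp C₁ * c * L := by field_simp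
      _ ≤ 2 * Real.exp C₁ * (c₀ * Real.exp (-C₁) / 2) * L := by gcongr
      _ = (Real.exp C₁ * Real.exp (-C₁)) * c₀ * L := by ring
      _ = c₀ * L := by rw [h6, one_mul]
  obtain ⟨W, hW⟩ : ∃ W : ℕ, W = WW w := ⟨_, rfl⟩
  have hW1 : 1 ≤ W := by rw [hW]; exact WW_pos w
  have hWle : (W : ℝ) ≤ Real.exp (L / 50) := by
    rw [hW, hwd]
    exact WW_le hL0.le
  have hWR : (0:ℝ) < W := by exact_mod_cast hW1
  obtain ⟨U, hU⟩ : ∃ U : Finset ℕ, U = q.primeFactors.filter (fun p : ℕ => w < (p : ℝ)) :=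
    ⟨_, rfl⟩
  have hUp : ∀ p ∈ U, p.Prime ∧ w < (p : ℝ) ∧ p ∣ q := fun p hp => by
    rw [hU, Finset.mem_filter] at hp
    exact ⟨Nat.prime_of_mem_primeFactors hp.1, hp.2, Nat.dvd_of_mem_primeFactors hp.1⟩
  have hUc : (U.card : ℝ) ≤ L / 80 := by
    rw [hU, hwd]
    exact card_U K L f1 hK g1 q hq (by rw [← hYr]; exact hqK)
  obtain ⟨κU, hκU⟩ : ∃ κU : ℝ, κU = ∏ p ∈ U, (1 - (rho (ff D) p : ℝ) / (p : ℝ)) := ⟨_, rfl⟩
  have hκUge : Real.exp (-(L / 40)) ≤ κU := by
    rw [hκU]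
    refine prod_U_ge D U (fun p hp => ⟨(hUp p hp).1, ?_⟩) L hUc
    have h1 : (3 : ℝ) ≤ p := by linarith [(hUp p hp).2.1]
    exact_mod_cast h1
  have hEU : ∏ p ∈ U, (1 + (rho (ff D) p : ℝ)) ≤ Real.exp (L / 40) :=
    prod_U_le D U (fun p hp => (hUp p hp).1) L hUc
  obtain ⟨𝒜, h𝒜⟩ : ∃ 𝒜 : Finset ℤ, 𝒜 = (Finset.Ioc A' B').filter
    (fun a : ℤ => (W : ℤ) ∣ a - r ∧ ∀ p ∈ U, ¬ (p : ℤ) ∣ (ff D).eval a) := ⟨_, rfl⟩
  obtain ⟨N, hN⟩ : ∃ N : ℝ, N = ((B' : ℝ) - A') / W * κU := ⟨_, rfl⟩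
  have hNge : Y ^ (1 / 2 : ℝ) ≤ N := by
    have h1 : Real.exp (88 / 100 * L) ≤ ((B' : ℝ) - A') / W := by
      rw [le_div_iff₀ hWR, hBA]
      refine le_trans ?_ hHge
      calc Real.exp (88 / 100 * L) * W ≤ Real.exp (88 / 100 * L) * Real.exp (L / 50) :=
            mul_le_mul_of_nonneg_left hWle (Real.exp_pos _).le
        _ = Real.exp (9 / 10 * L) := by rw [← Real.exp_add]; congr 1; ring
    rw [hN, hYr]
    calc Real.exp (1 / 2 * L) ≤ Real.exp (88 / 100 * L) * Real.exp (-(L / 40)) := by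
          rw [← Real.exp_add]
          exact Real.exp_le_exp.mpr (by linarith)
      _ ≤ _ := mul_le_mul h1 hκUge (Real.exp_pos _).le (le_trans (Real.exp_pos _).le h1)
  -- conclusion for a suitable `a`
  have hfin : ∀ a ∈ 𝒜, (∀ z ∈ Rs, ∃ p : ℕ, p.Prime ∧ (p : ℝ) ≤ T ∧ (p : ℤ) ∣ val D a z) →
      ∃ n : ℤ, M < n ∧ (n : ℝ) ≤ M + Y ∧ (∀ p ∈ q.primeFactors, ¬ (p : ℤ) ∣ (ff D).eval n) ∧
        ∀ z ∈ S, ∃ p : ℕ, p.Prime ∧
        (p : ℝ) ≤ T ∧ (p : ℤ) ∣ val D n z ∧ (p : ℤ) < val D n z := by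
    intro a ha hcovd
    rw [h𝒜, Finset.mem_filter, Finset.mem_Ioc] at ha
    obtain ⟨⟨ha1, ha2⟩, ha3, ha4⟩ := ha
    have hWp : ∀ p ∈ PR w, (p : ℤ) ∣ a - r := by
      intro p hp
      refine dvd_trans ?_ ha3
      have : p ∣ W := by
        rw [hW]
        exact Finset.dvd_prod_of_mem _ hp
      exact_mod_cast this
    refine ⟨a, by omega, ?_, ?_, ?_⟩
    · have h1 : (a : ℝ) ≤ B' := by exact_mod_cast ha2
      linarith
    · intro p hp
      have hpp := Nat.prime_of_mem_primeFactors hp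
      have hpq := Nat.dvd_of_mem_primeFactors hp
      by_cases hpw : w < (p : ℝ)
      · exact ha4 p (by rw [hU, Finset.mem_filter]; exact ⟨hp, hpw⟩)
      · have hpR : p ∈ PR w := (mem_PR hw0).2 ⟨hpp, not_lt.1 hpw⟩
        intro h
        exact hrq p hpR hpq
          ((Pool.Agent.H474R2.PG.eval_dvd_congr (ff D) p a r (hWp p hpR)).1 h)
    · intro z hz
      have hex : ∃ p : ℕ, p.Prime ∧ (p : ℝ) ≤ T ∧ (p : ℤ) ∣ val D a z := by
        by_cases hzR : z ∈ Rs
        · exact hcovd z hzR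
        · rw [hRs, Finset.mem_filter, not_and] at hzR
          have h1 := hzR hz
          push Not at h1
          obtain ⟨p, hp, hpd⟩ := h1
          rw [hPQ, Finset.mem_filter] at hp
          refine ⟨p, PR_prime hp.1, ?_, ?_⟩
          · have h2 := PR_le hw0 hp.1
            rw [hwd] at h2
            linarith
          · rw [← pol_eval] at hpd ⊢
            exact (Pool.Agent.H474R2.PG.eval_dvd_congr (pol D z) p a r (hWp p hp.1)).2 hpd
      obtain ⟨p, hp, hpT, hpd⟩ := hex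
      refine ⟨p, hp, hpT, hpd, ?_⟩
      have h1 := hpiece z hz a (by omega) (by omega)
      have h2 : (p : ℤ) < |a + z.1| := by
        have h3 : (p : ℝ) < |((a + z.1 : ℤ) : ℝ)| := by linarith
        exact_mod_cast h3
      have h3 : |a + z.1| ≤ (a + z.1) ^ 2 := by
        rw [← sq_abs]
        have h4 : 1 ≤ |a + z.1| := by
          have := hp.pos
          omega
        nlinarith
      have h4 : (0 : ℤ) ≤ (D : ℤ) * (z.2 : ℤ) ^ 2 := by positivity
      unfold val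
      linarith
  have h𝒜ne : 𝒜.Nonempty := by
    have h1 := count_U D A' B' hAB W hW1 r U (fun p hp => ⟨(hUp p hp).1, by
      rw [hW]
      exact PR_not_dvd hw0 (hUp p hp).1 (hUp p hp).2.1⟩) (fun _ => 0) ∅ (by simp) (by simp)
    have h2 : (Finset.Ioc A' B').filter (fun a : ℤ => ((W : ℤ) ∣ a - r ∧
        ∀ p ∈ (∅ : Finset ℕ), (p : ℤ) ∣ ((fun _ => 0 : ℕ → ℤ[X]) p).eval a) ∧
          ∀ p ∈ U, ¬ (p : ℤ) ∣ (ff D).eval a) = 𝒜 := by
      rw [h𝒜]
      refine Finset.filter_congr fun a _ => ?_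
      simp
    rw [h2, Finset.prod_empty, Finset.prod_empty, mul_one, mul_one, ← hκU, ← hN] at h1
    rw [← Finset.card_pos]
    have h3 : Real.exp (L / 40) < N := by
      refine lt_of_lt_of_le ?_ hNge
      rw [hYr]
      exact Real.exp_lt_exp.mpr (by linarith)
    have h4 := (abs_le.mp h1).1
    have : (0:ℝ) < (𝒜.card : ℝ) := by linarith
    exact_mod_cast this
  rcases Rs.eq_empty_or_nonempty with hemp | hne
  · obtain ⟨a, ha⟩ := h𝒜ne
    rw [hT] at hfin
    rw [← hL]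
    exact hfin a ha (fun k hk => by rw [hemp] at hk; exact absurd hk (Finset.notMem_empty k))
  · have : Nonempty (↥Rs) := hne.to_subtype
    -- the excluded primes
    obtain ⟨Bd, hBd⟩ : ∃ Bd : Finset ℕ, Bd = bad D Rs ∪ q.primeFactors := ⟨_, rfl⟩
    have hBdcard : (Bd.card : ℝ) ≤ L ^ 5 := by
      have hu : (Bd.card : ℝ) ≤ ((bad D Rs).card : ℝ) + (q.primeFactors.card : ℝ) := by
        rw [hBd]
        exact_mod_cast Finset.card_union_le _ _
      have hqc : (q.primeFactors.card : ℝ) ≤ 2 * (K * L) :=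
        card_primeFactors_le q (K * L) (by positivity) (by rw [← hYr]; exact hqK)
      have hKL : 0 ≤ (4 * K + 1) * L := by positivity
      have hYK : (1 : ℝ) ≤ Y ^ K := by
        rw [hYr]
        exact Real.one_le_exp (by positivity)
      have h1 := bad_card D Rs ((4 * K + 1) * L) hKL (by
        intro z hz
        refine (hS z (hRsS z hz)).2.2.trans ?_
        rw [hYr]
        apply Real.exp_le_exp.mpr
        nlinarith) (by
        intro z hz z' hz'
        obtain ⟨-, u1, u2⟩ := hS z (hRsS z hz)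
        obtain ⟨-, v1, v2⟩ := hS z' (hRsS z' hz')
        refine (res_size D (Y ^ K) hYK z z' u1 u2 v1 v2).trans ?_
        have h16 : (0:ℝ) < 16 * ((D : ℝ) + 1) ^ 2 := by positivity
        have e1 : 16 * ((D : ℝ) + 1) ^ 2 = Real.exp (Real.log (16 * ((D : ℝ) + 1) ^ 2)) :=
          (Real.exp_log h16).symm
        have e2 : (Y ^ K) ^ 4 = Real.exp (4 * (K * L)) := by
          rw [hYr, ← Real.exp_nat_mul]
          norm_num
        rw [e1, e2, ← Real.exp_add]
        apply Real.exp_le_exp.mpr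
        linarith)
      have h2 : (Rs.card : ℝ) + (Rs.card : ℝ) ^ 2 ≤ (c₀ + c₀ ^ 2) * L ^ 2 := by
        have h3 : (Rs.card : ℝ) ^ 2 ≤ (c₀ * L) ^ 2 :=
          pow_le_pow_left₀ (Nat.cast_nonneg _) hRs2 2
        have h4 : c₀ * L ≤ c₀ * L ^ 2 := by
          apply mul_le_mul_of_nonneg_left _ hc₀.le
          exact le_self_pow₀ (by linarith) (by norm_num)
        nlinarith
      have h3 : ((Rs.card : ℝ) + (Rs.card : ℝ) ^ 2) * (2 * ((4 * K + 1) * L)) ≤ L ^ 4 := by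
        calc ((Rs.card : ℝ) + (Rs.card : ℝ) ^ 2) * (2 * ((4 * K + 1) * L))
          ≤ ((c₀ + c₀ ^ 2) * L ^ 2) * (2 * ((4 * K + 1) * L)) :=
            mul_le_mul_of_nonneg_right h2 (by positivity)
          _ = ((c₀ + c₀ ^ 2) * (2 * (4 * K + 1))) * L ^ 3 := by ring
          _ ≤ L * L ^ 3 := mul_le_mul_of_nonneg_right f6 (by positivity)
          _ = L ^ 4 := by ring
      have h4 : 2 * (K * L) ≤ L ^ 2 := by nlinarith
      have h5 : L ^ 2 ≤ L ^ 4 := pow_le_pow_right₀ (by linarith) (by norm_num)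
      have h6 : L ^ 4 + L ^ 4 ≤ L ^ 5 := by
        have h7 : (0:ℝ) ≤ L ^ 4 := by positivity
        have h8 : L ^ 5 = L ^ 4 * L := by ring
        rw [h8]
        nlinarith
      linarith
    obtain ⟨hit, hhit⟩ : ∃ hit : ℕ → ℤ → (↥Rs) → Prop, hit = fun (p : ℕ) (a : ℤ) (k : ↥Rs) =>
      L ^ 5 < (p : ℝ) ∧ p ∉ Bd ∧ (p : ℤ) ∣ val D a (k : ℤ × ℕ) := ⟨_, rfl⟩
    have hm1 : ∀ k : ↥Rs, 1 ≤ (k : ℤ × ℕ).2 := fun k => (hS k (hRsS k k.2)).1
    obtain ⟨a, ha, hac⟩ := hcov Y hYX Bd (↥Rs) (by rw [Fintype.card_coe, ← hL]; exact hRs2) hit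
      (fun p _ => gg D (L ^ 5) Bd p)
      (fun p _ => ⟨gg_nonneg _ _ _ p, gg_le _ _ _ p⟩)
      (by
        intro p hp _ a k k' h1 h2
        rw [hhit] at h1 h2
        apply Subtype.ext
        have hb : p ∉ bad D Rs := fun h => h1.2.1 (by
          rw [hBd]
          exact Finset.mem_union_left _ h)
        exact not_bad_uniq hD hp hb k.2 k'.2 (hm1 k) a h1.2.2 h2.2.2)
      (by
        intro k z x h1 h2 _
        rw [← hL] at h1 ⊢
        exact hRG' Bd hBdcard z x h1 h2)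
      𝒜 N (Real.exp (1 / 10 * L)) hNge (Real.exp_pos _).le (by rw [hYr])
      (by
        intro T' s hTX hTp
        rw [← hL] at hTp
        rw [hYr] at hTX
        by_cases hall : ∀ p ∈ T', L ^ 5 < (p : ℝ)
        · have hTq : ∀ p ∈ T', ¬ p ∣ q := fun p hp h => (hTp p hp).2.2 (by
            rw [hBd]
            exact Finset.mem_union_right _ (Nat.mem_primeFactors.2 ⟨(hTp p hp).1, h, by omega⟩))
          have h1 := count_U D A' B' hAB W hW1 r U (fun p hp => ⟨(hUp p hp).1, by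
              rw [hW]
              exact PR_not_dvd hw0 (hUp p hp).1 (hUp p hp).2.1⟩)
            (fun p => pol D (s p : ℤ × ℕ)) T'
            (fun p hp => ⟨(hTp p hp).1, by
              rw [hW]
              apply PR_not_dvd hw0 (hTp p hp).1
              have e1 := hall p hp
              have e2 : L ≤ L ^ 5 := le_self_pow₀ (by linarith) (by norm_num)
              rw [hwd]
              linarith⟩) (by
              rw [Finset.disjoint_left]
              intro p hp hp'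
              exact hTq p hp' (hUp p hp).2.2)
          have hnm : ∀ p ∈ T', ¬ p ∣ (s p : ℤ × ℕ).2 := fun p hp =>
            not_bad_m (D := D) (hTp p hp).1 (fun h => (hTp p hp).2.2 (by
              rw [hBd]
              exact Finset.mem_union_left _ h)) (s p).2 (hm1 (s p))
          have h2 : 𝒜.filter (fun a => ∀ p ∈ T', hit p a (s p)) =
              (Finset.Ioc A' B').filter (fun a : ℤ => ((W : ℤ) ∣ a - r ∧
                ∀ p ∈ T', (p : ℤ) ∣ (pol D (s p : ℤ × ℕ)).eval a) ∧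
                ∀ p ∈ U, ¬ (p : ℤ) ∣ (ff D).eval a) := by
            rw [h𝒜, Finset.filter_filter]
            refine Finset.filter_congr fun a _ => ?_
            have h9 : (∀ p ∈ T', hit p a (s p)) ↔
                ∀ p ∈ T', (p : ℤ) ∣ (pol D (s p : ℤ × ℕ)).eval a := by
              refine forall₂_congr fun p hp => ?_
              rw [hhit, pol_eval]
              exact ⟨fun h => h.2.2, fun h => ⟨hall p hp, (hTp p hp).2.2, h⟩⟩
            rw [h9]
            tauto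
          have h3 : ∏ p ∈ T', (rho (pol D (s p : ℤ × ℕ)) p : ℝ) / (p : ℝ) =
              ∏ p ∈ T', gg D (L ^ 5) Bd p := by
            refine Finset.prod_congr rfl fun p hp => ?_
            unfold gg
            rw [if_pos ⟨(hTp p hp).1, hall p hp, (hTp p hp).2.2⟩,
              rho_pol D _ p (hTp p hp).1 (hnm p hp)]
          have h4 : ∏ p ∈ T', (rho (pol D (s p : ℤ × ℕ)) p : ℝ) =
              ∏ p ∈ T', (rho (ff D) p : ℝ) := by
            refine Finset.prod_congr rfl fun p hp => ?_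
            rw [rho_pol D _ p (hTp p hp).1 (hnm p hp)]
          have h5 := err D L f1 (by rw [← hl]; exact f2) T'
            (fun p hp => ⟨(hTp p hp).1, hall p hp⟩) hTX
          rw [h2, hN, ← h3, hκU]
          rw [h4] at h1
          refine h1.trans ?_
          calc (∏ p ∈ U, (1 + (rho (ff D) p : ℝ))) * ∏ p ∈ T', (rho (ff D) p : ℝ)
              ≤ Real.exp (L / 40) * Real.exp (L / 40) :=
                mul_le_mul hEU h5 (by positivity) (Real.exp_pos _).le
            _ ≤ Real.exp (1 / 10 * L) := by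
                rw [← Real.exp_add]
                exact Real.exp_le_exp.mpr (by linarith)
        · push Not at hall
          obtain ⟨q, hq, hq5⟩ := hall
          have h1 : 𝒜.filter (fun a => ∀ p ∈ T', hit p a (s p)) = ∅ := by
            rw [Finset.filter_eq_empty_iff]
            intro a _ h
            have := h q hq
            rw [hhit] at this
            linarith [this.1]
          have h2 : ∏ p ∈ T', gg D (L ^ 5) Bd p = 0 := by
            apply Finset.prod_eq_zero hq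
            unfold gg
            rw [if_neg]
            rintro ⟨-, h, -⟩
            linarith
          rw [h1, h2]
          simp only [Finset.card_empty, Nat.cast_zero, mul_zero, sub_zero, abs_zero]
          exact (Real.exp_pos _).le)
    rw [hT] at hfin
    rw [← hL] at hac ⊢
    exact hfin a ha (fun z hz => by
      obtain ⟨p, hp, _, hpY, _, hpd⟩ := hac ⟨z, hz⟩
      rw [hhit] at hpd
      exact ⟨p, hp, hpY, hpd.2.2⟩)

end Pool.Agent.J6H61.GC
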